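import Mathlib

/-!
# Meromorphic continuation: gluing and isolation of factors by large shifts
-/

set_option autoImplicit false

namespace Pool.Agent.R390.SP

open Filter Topology Set Complex

/-- `L` has a meromorphic continuation to `ℂ`: there is a meromorphic function on `ℂ` which is equal to
`L` on a right half plane. -/
def HasMero (L : ℂ → ℂ) : Prop :=
  ∃ g : ℂ → ℂ, MeromorphicOn g Set.univ ∧ ∃ c : ℝ, ∀ s : ℂ, c < s.re → g s = L s

/-- `L` has a meromorphic continuation to the half plane `x < Re s`. -/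
def MeroTo (L : ℂ → ℂ) (x : ℝ) : Prop :=
  ∃ g : ℂ → ℂ, (∀ s : ℂ, x < s.re → MeromorphicAt g s) ∧ ∃ c : ℝ, ∀ s : ℂ, c < s.re → g s = L s

theorem glue {L : ℂ → ℂ} {c₀ : ℝ} (hL : ∀ s : ℂ, c₀ < s.re → AnalyticAt ℂ L s)
    (h : ∀ x : ℝ, MeroTo L x) : HasMero L := by
  classical
  have h' : ∀ k : ℕ, ∃ g : ℂ → ℂ, (∀ s : ℂ, -(k : ℝ) < s.re → MeromorphicAt g s) ∧
      ∃ c : ℝ, c₀ ≤ c ∧ ∀ s : ℂ, c < s.re → g s = L s := by
    intro k
    obtain ⟨g, hg, c, hc⟩ := h (-(k : ℝ))
    exact ⟨g, hg, max c c₀, le_max_right _ _, fun s hs => hc s (lt_of_le_of_lt (le_max_left _ _) hs)⟩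
  choose F hF c hc0 hc using h'
  set V : ℕ → Set ℂ := fun k => {z : ℂ | -(k : ℝ) < z.re} with hV
  have hVo : ∀ k, IsOpen (V k) := fun k => isOpen_lt continuous_const Complex.continuous_re
  set G : ℕ → ℂ → ℂ := fun k => toMeromorphicNFOn (F k) (V k) with hG
  have hFm : ∀ k, MeromorphicOn (F k) (V k) := fun k z hz => hF k z hz
  have hNF : ∀ k, ∀ z ∈ V k, MeromorphicNFAt (G k) z := fun k z hz =>
    meromorphicNFOn_toMeromorphicNFOn (F k) (V k) hz
  have hGL : ∀ k, ∀ z ∈ V k, c k < z.re → G k =ᶠ[𝓝 z] L := by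
    intro k z hzV hz
    have ho : IsOpen {z : ℂ | c k < z.re} := isOpen_lt continuous_const Complex.continuous_re
    have k1 := (hFm k).toMeromorphicNFOn_eq_self_on_nhdsNE hzV
    have k2 : F k =ᶠ[𝓝[≠] z] L := by
      have : F k =ᶠ[𝓝 z] L := by
        filter_upwards [ho.mem_nhds hz] with x hx
        exact hc k x hx
      exact this.filter_mono nhdsWithin_le_nhds
    exact ((hNF k z hzV).eventuallyEq_nhdsNE_iff_eventuallyEq_nhds
      (hL z (lt_of_le_of_lt (hc0 k) hz)).meromorphicNFAt).1 (k1.trans k2)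
  have hcomp : ∀ k l (z : ℂ), z ∈ V k → z ∈ V l → G k z = G l z := by
    intro k l z hz hz'
    set U : Set ℂ := (fun t : ℝ => z + (t : ℂ)) '' Ici 0 with hU
    have hUc : IsPreconnected U := by
      refine isPreconnected_Ici.image _ ?_
      fun_prop
    have hre : ∀ t : ℝ, (z + (t : ℂ)).re = z.re + t := by
      intro t
      simp
    have hUV : ∀ w ∈ U, w ∈ V k ∧ w ∈ V l := by
      rintro _ ⟨t, ht, rfl⟩
      have ht' : (0 : ℝ) ≤ t := ht
      have h1 : -(k : ℝ) < z.re := hz
      have h2 : -(l : ℝ) < z.re := hz'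
      constructor
      · change -(k : ℝ) < (z + (t : ℂ)).re
        rw [hre]
        linarith
      · change -(l : ℝ) < (z + (t : ℂ)).re
        rw [hre]
        linarith
    have hzU : z ∈ U := ⟨0, by simp, by simp⟩
    have hm : MeromorphicOn (fun w => G k w - G l w) U := fun w hw =>
      (hNF k w (hUV w hw).1).meromorphicAt.fun_sub (hNF l w (hUV w hw).2).meromorphicAt
    set t₀ : ℝ := |z.re| + |c k| + |c l| + 1 with ht₀
    have hw₀ : z + t₀ ∈ U := ⟨t₀, by
      change 0 ≤ t₀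
      positivity, rfl⟩
    have hk1 : c k < (z + t₀).re := by
      rw [hre, ht₀]
      have := neg_abs_le z.re
      have := le_abs_self (c k)
      have := abs_nonneg (c l)
      linarith
    have hl1 : c l < (z + t₀).re := by
      rw [hre, ht₀]
      have := neg_abs_le z.re
      have := le_abs_self (c l)
      have := abs_nonneg (c k)
      linarith
    have htop : meromorphicOrderAt (fun w => G k w - G l w) (z + t₀) = ⊤ := by
      rw [meromorphicOrderAt_eq_top_iff]
      have k1 : ∀ᶠ w in 𝓝 (z + t₀), G k w - G l w = 0 := by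
        filter_upwards [hGL k _ (hUV _ hw₀).1 hk1, hGL l _ (hUV _ hw₀).2 hl1] with w l1 l2
        rw [l1, l2, sub_self]
      exact k1.filter_mono nhdsWithin_le_nhds
    have hztop : meromorphicOrderAt (fun w => G k w - G l w) z = ⊤ := by
      by_contra hne
      exact hm.meromorphicOrderAt_ne_top_of_isPreconnected hUc hzU hw₀ hne htop
    rw [meromorphicOrderAt_eq_top_iff] at hztop
    have k2 : G k =ᶠ[𝓝[≠] z] G l := by
      filter_upwards [hztop] with w hw
      exact sub_eq_zero.1 hw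
    exact (((hNF k z hz).eventuallyEq_nhdsNE_iff_eventuallyEq_nhds (hNF l z hz')).1 k2).eq_of_nhds
  set H : ℂ → ℂ := fun z => G (⌊|z.re|⌋₊ + 1) z with hH
  have hin : ∀ z : ℂ, z ∈ V (⌊|z.re|⌋₊ + 1) := by
    intro z
    change -((⌊|z.re|⌋₊ + 1 : ℕ) : ℝ) < z.re
    have h1 := Nat.lt_floor_add_one |z.re|
    have h2 := neg_abs_le z.re
    push_cast
    linarith
  have hHe : ∀ k, ∀ z ∈ V k, H z = G k z := fun k z hz => hcomp _ k z (hin z) hz
  refine ⟨H, fun s _ => ?_, max (c 0) 0, fun s hs => ?_⟩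
  · have hsV := hin s
    have k1 : G (⌊|s.re|⌋₊ + 1) =ᶠ[𝓝 s] H := by
      filter_upwards [(hVo (⌊|s.re|⌋₊ + 1)).mem_nhds hsV] with z hz
      exact (hHe _ z hz).symm
    exact (hNF _ s hsV).meromorphicAt.congr (k1.filter_mono nhdsWithin_le_nhds)
  · have h0 : s ∈ V 0 := by
      change -((0 : ℕ) : ℝ) < s.re
      have := lt_of_le_of_lt (le_max_right (c 0) 0) hs
      simpa using this
    rw [hHe 0 s h0]
    exact (hGL 0 s h0 (lt_of_le_of_lt (le_max_left _ _) hs)).eq_of_nhds

lemma HasMero.congr {L M : ℂ → ℂ} (h : HasMero L) {c : ℝ} (he : ∀ s : ℂ, c < s.re → L s = M s) :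
    HasMero M := by
  obtain ⟨g, hg, c', hc⟩ := h
  refine ⟨g, hg, max c c', fun s hs => ?_⟩
  rw [hc s (lt_of_le_of_lt (le_max_right _ _) hs), he s (lt_of_le_of_lt (le_max_left _ _) hs)]

lemma HasMero.one : HasMero (fun _ => 1) :=
  ⟨fun _ => 1, fun _ _ => MeromorphicAt.const 1 _, 0, fun _ _ => rfl⟩

lemma HasMero.mul {L M : ℂ → ℂ} (hL : HasMero L) (hM : HasMero M) : HasMero (fun s => L s * M s) := by
  obtain ⟨g, hg, c, hc⟩ := hL
  obtain ⟨g', hg', c', hc'⟩ := hM
  refine ⟨fun s => g s * g' s, fun s hs => (hg s hs).fun_mul (hg' s hs), max c c', fun s hs => ?_⟩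
  simp only [hc s (lt_of_le_of_lt (le_max_left _ _) hs), hc' s (lt_of_le_of_lt (le_max_right _ _) hs)]

lemma HasMero.inv {L : ℂ → ℂ} (hL : HasMero L) : HasMero (fun s => (L s)⁻¹) := by
  obtain ⟨g, hg, c, hc⟩ := hL
  refine ⟨fun s => (g s)⁻¹, fun s hs => (hg s hs).fun_inv, c, fun s hs => ?_⟩
  simp only [hc s hs]

lemma HasMero.div {L M : ℂ → ℂ} (hL : HasMero L) (hM : HasMero M) : HasMero (fun s => L s / M s) := by
  simpa only [div_eq_mul_inv] using hL.mul hM.inv

lemma HasMero.zpow {L : ℂ → ℂ} (hL : HasMero L) (k : ℤ) : HasMero (fun s => L s ^ k) := by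
  obtain ⟨g, hg, c, hc⟩ := hL
  refine ⟨fun s => g s ^ k, fun s hs => (hg s hs).fun_zpow k, c, fun s hs => ?_⟩
  simp only [hc s hs]

lemma HasMero.prod {ι : Type*} {L : ι → ℂ → ℂ} (T : Finset ι) (h : ∀ i ∈ T, HasMero (L i)) :
    HasMero (fun s => ∏ i ∈ T, L i s) := by
  classical
  induction T using Finset.induction_on with
  | empty => simpa using HasMero.one
  | insert i T hi ih =>
    have := (h i (Finset.mem_insert_self i T)).mul
      (ih fun j hj => h j (Finset.mem_insert_of_mem hj))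
    refine this.congr (c := 0) fun s _ => ?_
    rw [Finset.prod_insert hi]

lemma HasMero.shift {L : ℂ → ℂ} (hL : HasMero L) (a : ℝ) : HasMero (fun s => L (s + a)) := by
  obtain ⟨g, hg, c, hc⟩ := hL
  refine ⟨fun s => g (s + a), fun s _ => ?_, c - a, fun s hs => ?_⟩
  · have h1 : MeromorphicAt g (s + a) := hg _ (mem_univ _)
    have h2 : AnalyticAt ℂ (fun z : ℂ => z + (a : ℂ)) s := by fun_prop
    exact MeromorphicAt.comp_analyticAt (g := fun z : ℂ => z + (a : ℂ)) h1 h2
  · refine hc _ ?_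
    simp only [add_re, ofReal_re]
    linarith

/-- analytic without zeros on a right half plane -/
def Nice (L : ℂ → ℂ) (c : ℝ) : Prop := ∀ s : ℂ, c < s.re → AnalyticAt ℂ L s ∧ L s ≠ 0

lemma Nice.mono {L : ℂ → ℂ} {c c' : ℝ} (h : Nice L c) (hc : c ≤ c') : Nice L c' :=
  fun s hs => h s (lt_of_le_of_lt hc hs)

/-- **Isolation of the factors.** If the product of the shifted functions `G d (s + t d)` has a
meromorphic continuation for arbitrarily large `t` then all `G d` have a meromorphic continuation. -/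
theorem isolate {G : ℕ → ℂ → ℂ} {c : ℝ} (D : Finset ℕ) (hG : ∀ d ∈ D, Nice (G d) c)
    (h : ∀ T : ℝ, ∃ t : ℝ, T ≤ t ∧ HasMero (fun s => ∏ d ∈ D, G d (s + (t * d : ℝ)))) :
    ∀ d ∈ D, HasMero (G d) := by
  classical
  induction D using Finset.strongInduction with
  | H D ih =>
    rcases D.eq_empty_or_nonempty with rfl | hne
    · simp
    set d₀ := D.min' hne with hd₀
    have hd₀D : d₀ ∈ D := Finset.min'_mem D hne
    have h0 : HasMero (G d₀) := by
      refine glue (c₀ := c) (fun s hs => (hG d₀ hd₀D s hs).1) fun x => ?_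
      obtain ⟨t, ht, g, hg, c', hc'⟩ := h (max (c - x) 0)
      have ht1 : c - x ≤ t := (le_max_left _ _).trans ht
      have ht0 : 0 ≤ t := (le_max_right _ _).trans ht
      have hsh : ∀ d ∈ D.erase d₀, ∀ u : ℂ, x < u.re → c < (u + (t * (d - d₀ : ℝ) : ℝ)).re := by
        intro d hd u hu
        have h1 : d₀ < d := lt_of_le_of_ne (Finset.min'_le D d (Finset.mem_of_mem_erase hd))
          (Finset.ne_of_mem_erase hd).symm
        have h2 : (1 : ℝ) ≤ (d : ℝ) - d₀ := by
          have : (d₀ : ℝ) + 1 ≤ d := by exact_mod_cast h1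
          linarith
        rw [add_re, ofReal_re]
        nlinarith
      refine ⟨fun u => g (u - (t * d₀ : ℝ)) / ∏ d ∈ D.erase d₀, G d (u + (t * (d - d₀ : ℝ) : ℝ)),
        fun u hu => ?_, max (max x (c' + t * d₀)) c, fun u hu => ?_⟩
      · have h1 : MeromorphicAt g (u - (t * d₀ : ℝ)) := hg _ (mem_univ _)
        have h2 : AnalyticAt ℂ (fun z : ℂ => z - ((t * d₀ : ℝ) : ℂ)) u := by fun_prop
        have h3 : MeromorphicAt (fun z : ℂ => g (z - ((t * d₀ : ℝ) : ℂ))) u :=
          MeromorphicAt.comp_analyticAt (g := fun z : ℂ => z - ((t * d₀ : ℝ) : ℂ)) h1 h2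
        have h4 : AnalyticAt ℂ
            (fun z : ℂ => ∏ d ∈ D.erase d₀, G d (z + (t * (d - d₀ : ℝ) : ℝ))) u := by
          refine Finset.analyticAt_fun_prod _ fun d hd => ?_
          have h5 := (hG d (Finset.mem_of_mem_erase hd) _ (hsh d hd u hu)).1
          have h6 : AnalyticAt ℂ (fun z : ℂ => z + ((t * (d - d₀ : ℝ) : ℝ) : ℂ)) u := by fun_prop
          exact h5.comp_of_eq h6 rfl
        exact h3.fun_div h4.meromorphicAt
      · have hx : x < u.re := lt_of_le_of_lt ((le_max_left _ _).trans (le_max_left _ _)) hu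
        have hcu : c' + t * d₀ < u.re := lt_of_le_of_lt ((le_max_right _ _).trans (le_max_left _ _)) hu
        have hP : ∏ d ∈ D.erase d₀, G d (u + (t * (d - d₀ : ℝ) : ℝ)) ≠ 0 :=
          Finset.prod_ne_zero_iff.2 fun d hd =>
            (hG d (Finset.mem_of_mem_erase hd) _ (hsh d hd u hx)).2
        rw [div_eq_iff hP, hc' _ (by
          rw [sub_re, ofReal_re]
          linarith)]
        simp only
        rw [← Finset.mul_prod_erase D _ hd₀D]
        congr 1
        · congr 1
          ring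
        · refine Finset.prod_congr rfl fun d _ => ?_
          congr 1
          push_cast
          ring
    intro d hd
    by_cases hdd : d = d₀
    · rw [hdd]
      exact h0
    · refine ih (D.erase d₀) (Finset.erase_ssubset hd₀D)
        (fun e he => hG e (Finset.mem_of_mem_erase he)) (fun T => ?_) d
        (Finset.mem_erase.2 ⟨hdd, hd⟩)
      obtain ⟨t, ht, hm⟩ := h T
      refine ⟨t, ht, (hm.div (h0.shift (t * d₀))).congr (c := c - t * d₀) fun s hs => ?_⟩
      have h1 : G d₀ (s + (t * d₀ : ℝ)) ≠ 0 := (hG d₀ hd₀D _ (by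
        rw [add_re, ofReal_re]
        linarith)).2
      rw [div_eq_iff h1, ← Finset.mul_prod_erase D _ hd₀D, mul_comm]

end Pool.Agent.R390.SP
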