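import Mathlib
import Pool.Agent.R390.SP.An

/-!
# Automorphic representations of `GL_m` and `GSp_{2n}` over `ℚ` and their `L`-functions
-/

set_option autoImplicit false

namespace Pool.Agent.R390.SP

/-- The unramified parameters of the automorphic representations of `GL_m` and `GSp_{2n}` over `ℚ`,
with the properties used.

`IsGL m S a`: there is an automorphic representation of `GL_m`, unramified at the primes `p` outside `S`,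
with the Satake parameters `a p 0, …, a p (m - 1)` at these `p`, in any order.

`IsGSp n S b₀ b`: there is an automorphic representation of `GSp_{2n}` (of `GL₁`, the group of similitudes,
if `n = 0`), unramified at the primes `p` outside `S`, such that at these `p` the eigenvalues of the spin
representation of degree `2 ^ n` on its Satake class are the numbers `b₀ p ∏_{i ∈ I} b p i`. -/
structure Automorphic where
  IsGL : (m : ℕ) → Finset ℕ → (ℕ → Fin m → ℂ) → Prop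
  IsGSp : (n : ℕ) → Finset ℕ → (ℕ → ℂ) → (ℕ → Fin n → ℂ) → Prop
  /-- unramified outside a larger set -/
  mono_gl : ∀ {m : ℕ} {S S' : Finset ℕ} {a : ℕ → Fin m → ℂ}, S ⊆ S' → IsGL m S a → IsGL m S' a
  mono_gsp : ∀ {n : ℕ} {S S' : Finset ℕ} {b₀ : ℕ → ℂ} {b : ℕ → Fin n → ℂ}, S ⊆ S' →
    IsGSp n S b₀ b → IsGSp n S' b₀ b
  /-- the parameters and their inverses are bounded by a power of `p` -/
  growth_gl : ∀ {m : ℕ} {S : Finset ℕ} {a : ℕ → Fin m → ℂ}, IsGL m S a →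
    ∃ C : ℝ, ∀ p : ℕ, p.Prime → p ∉ S → ∀ i, (p : ℝ) ^ (-C) ≤ ‖a p i‖ ∧ ‖a p i‖ ≤ (p : ℝ) ^ C
  growth_gsp : ∀ {n : ℕ} {S : Finset ℕ} {b₀ : ℕ → ℂ} {b : ℕ → Fin n → ℂ}, IsGSp n S b₀ b →
    ∃ C : ℝ, ∀ p : ℕ, p.Prime → p ∉ S → ((p : ℝ) ^ (-C) ≤ ‖b₀ p‖ ∧ ‖b₀ p‖ ≤ (p : ℝ) ^ C) ∧
      ∀ i, (p : ℝ) ^ (-C) ≤ ‖b p i‖ ∧ ‖b p i‖ ≤ (p : ℝ) ^ C
  /-- the trivial character of `GL₁` -/
  unit : ∀ b : ℕ → Fin 0 → ℂ, IsGSp 0 ∅ (fun _ => 1) b
  /-- the powers of the central characters -/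
  central_gl : ∀ {m : ℕ} {S : Finset ℕ} {a : ℕ → Fin m → ℂ}, IsGL m S a → ∀ z : ℤ,
    IsGL 1 S (fun p _ => (∏ i, a p i) ^ z)
  central_gsp : ∀ {n : ℕ} {S : Finset ℕ} {b₀ : ℕ → ℂ} {b : ℕ → Fin n → ℂ}, IsGSp n S b₀ b → ∀ z : ℤ,
    IsGL 1 S (fun p _ => (b₀ p ^ 2 * ∏ i, b p i) ^ z)
  /-- the constituents of the representations induced from `∏ GL_{m i} × GSp_{2n}` and
  `(⊗ τ_i |det|^{t_i}) ⊗ π` are automorphic (Langlands) -/
  induced : ∀ {n : ℕ} {S : Finset ℕ} {b₀ : ℕ → ℂ} {b : ℕ → Fin n → ℂ}, IsGSp n S b₀ b →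
    ∀ {β : Type} [Fintype β] (m : β → ℕ) (a : ∀ i, ℕ → Fin (m i) → ℂ),
    (∀ i, IsGL (m i) S (a i)) → ∀ (t : β → ℝ) (N : ℕ) (e : Fin N ≃ Fin n ⊕ (Σ i, Fin (m i))),
    IsGSp N S b₀ (fun p j =>
      Sum.elim (b p) (fun x => a x.1 p x.2 * (((p : ℝ) ^ (-t x.1) : ℝ) : ℂ)) (e j))
  /-- the standard transfer to `GL_{2n+1}` of the restriction to `Sp_{2n}` (Arthur) -/
  standard : ∀ {n : ℕ} {S : Finset ℕ} {b₀ : ℕ → ℂ} {b : ℕ → Fin n → ℂ}, IsGSp n S b₀ b →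
    ∃ S' : Finset ℕ, S ⊆ S' ∧ ∀ e : Fin (2 * n + 1) ≃ (Fin n ⊕ Fin n) ⊕ Unit,
      IsGL (2 * n + 1) S' (fun p j =>
        Sum.elim (Sum.elim (b p) (fun i => (b p i)⁻¹)) (fun _ => 1) (e j))

/-- The spin `L`-function `L_S(s, π, r)`. -/
noncomputable def spinL {n : ℕ} (S : Finset ℕ) (b₀ : ℕ → ℂ) (b : ℕ → Fin n → ℂ) (s : ℂ) : ℂ :=
  ∏' p : Nat.Primes, if (p : ℕ) ∈ S then 1 else
    ∏ I : Finset (Fin n), (1 - b₀ p * (∏ i ∈ I, b p i) * ((p : ℕ) : ℂ) ^ (-s))⁻¹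

/-- The function `f` on the weights of the dual group `GSpin_{2n+1}` of `GSp_{2n}` is invariant under the
Weyl group. The multiplicities of the weights in a representation `ρ` have this property. -/
structure WeylInvariant {n : ℕ} (f : (ℤ × (Fin n → ℤ)) →₀ ℤ) : Prop where
  perm : ∀ (σ : Equiv.Perm (Fin n)) (ν₀ : ℤ) (ν : Fin n → ℤ), f (ν₀, ν ∘ σ) = f (ν₀, ν)
  flip : ∀ (i : Fin n) (ν₀ : ℤ) (ν : Fin n → ℤ), f (ν₀, Function.update ν i (ν₀ - ν i)) = f (ν₀, ν)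

/-- The `L`-function `L_S(s, π, ρ)` if `f` gives the multiplicities of the weights of `ρ`. -/
noncomputable def gspL {n : ℕ} (S : Finset ℕ) (b₀ : ℕ → ℂ) (b : ℕ → Fin n → ℂ)
    (f : (ℤ × (Fin n → ℤ)) →₀ ℤ) (s : ℂ) : ℂ :=
  ∏' p : Nat.Primes, if (p : ℕ) ∈ S then 1 else
    ∏ ν ∈ f.support, (1 - b₀ p ^ ν.1 * (∏ i, b p i ^ ν.2 i) * ((p : ℕ) : ℂ) ^ (-s)) ^ (-f ν)

/-- The `L`-function `L_S(s, τ, ρ)` of `τ` on `GL_m` if `f` gives the multiplicities of the weights of the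
representation `ρ` of `GL_m(ℂ)`. -/
noncomputable def glL {m : ℕ} (S : Finset ℕ) (a : ℕ → Fin m → ℂ) (f : (Fin m → ℤ) →₀ ℤ) (s : ℂ) : ℂ :=
  ∏' p : Nat.Primes, if (p : ℕ) ∈ S then 1 else
    ∏ ν ∈ f.support, (1 - (∏ i, a p i ^ ν i) * ((p : ℕ) : ℂ) ^ (-s)) ^ (-f ν)

/-- The `L`-function of `τ_1 × … × τ_k × π` and of the tensor product of the exterior powers `Λ^{j i}` of
the standard representations of `GL_{m i}` and of the spin representation. -/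
noncomputable def tensorL {n : ℕ} (S : Finset ℕ) (b₀ : ℕ → ℂ) (b : ℕ → Fin n → ℂ) {β : Type}
    [Fintype β] [DecidableEq β] {m : β → ℕ} (a : ∀ i, ℕ → Fin (m i) → ℂ) (j : β → ℕ) (s : ℂ) : ℂ :=
  ∏' p : Nat.Primes, if (p : ℕ) ∈ S then 1 else
    ∏ I : Finset (Fin n), ∏ J ∈ Fintype.piFinset fun i => Finset.powersetCard (j i) Finset.univ,
      (1 - b₀ p * (∏ i ∈ I, b p i) * (∏ i, ∏ l ∈ J i, a i p l) * ((p : ℕ) : ℂ) ^ (-s))⁻¹

end Pool.Agent.R390.SP
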