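import Mathlib
import Pool.Agent.R390.SP.An

/-!
# Euler products
-/

set_option autoImplicit false

namespace Pool.Agent.R390.SP

open Filter Topology Complex

/-- the local term -/
noncomputable def tm (S : Finset ℕ) (a : ℕ → ℂ) (p : Nat.Primes) (s : ℂ) : ℂ :=
  if (p : ℕ) ∈ S then 0 else -(a p * ((p : ℕ) : ℂ) ^ (-s))

/-- `|a p| ≤ p ^ C` -/
def Bdd (S : Finset ℕ) (a : ℕ → ℂ) (C : ℝ) : Prop :=
  ∀ p : ℕ, p.Prime → p ∉ S → ‖a p‖ ≤ (p : ℝ) ^ C

/-- `∏ (1 - a p p ^ (-s))` -/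
noncomputable def E1 (S : Finset ℕ) (a : ℕ → ℂ) (s : ℂ) : ℂ := ∏' p : Nat.Primes, (1 + tm S a p s)

/-- `∏ (1 - a p p ^ (-s))⁻¹` -/
noncomputable def EP (S : Finset ℕ) (a : ℕ → ℂ) (s : ℂ) : ℂ := (E1 S a s)⁻¹

variable {S : Finset ℕ} {a : ℕ → ℂ} {C : ℝ}

lemma tm_le (h : Bdd S a C) {δ : ℝ} (p : Nat.Primes) {s : ℂ} (hs : C + 1 + δ ≤ s.re) :
    ‖tm S a p s‖ ≤ (p : ℝ) ^ (-(1 + δ)) := by
  unfold tm
  have hp : (0 : ℝ) < (p : ℝ) := by exact_mod_cast p.2.pos
  have hp1 : (1 : ℝ) ≤ (p : ℝ) := by exact_mod_cast p.2.one_lt.le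
  split_ifs with hS
  · rw [norm_zero]
    positivity
  · rw [norm_neg, norm_mul, Complex.norm_natCast_cpow_of_pos p.2.pos, neg_re]
    calc ‖a p‖ * (p : ℝ) ^ (-s.re) ≤ (p : ℝ) ^ C * (p : ℝ) ^ (-s.re) := by
          gcongr
          exact h p p.2 hS
      _ = (p : ℝ) ^ (C - s.re) := by rw [← Real.rpow_add hp, sub_eq_add_neg]
      _ ≤ (p : ℝ) ^ (-(1 + δ)) := Real.rpow_le_rpow_of_exponent_le hp1 (by linarith)

lemma tm_sum {δ : ℝ} (hδ : 0 < δ) : Summable fun p : Nat.Primes => (p : ℝ) ^ (-(1 + δ)) :=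
  Nat.Primes.summable_rpow.2 (by linarith)

lemma tm_norm_sum (h : Bdd S a C) {s : ℂ} (hs : C + 1 < s.re) : Summable fun p => ‖tm S a p s‖ :=
  Summable.of_nonneg_of_le (fun _ => norm_nonneg _)
    (fun p => tm_le h (δ := s.re - C - 1) p (by linarith)) (tm_sum (by linarith))

lemma tm_ne (h : Bdd S a C) {s : ℂ} (hs : C + 1 < s.re) (p : Nat.Primes) : 1 + tm S a p s ≠ 0 := by
  intro h0
  have h1 : tm S a p s = -1 := by linear_combination h0
  have h2 := tm_le h (δ := s.re - C - 1) p (by linarith : C + 1 + (s.re - C - 1) ≤ s.re)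
  rw [h1, norm_neg, norm_one] at h2
  have h3 : (p : ℝ) ^ (-(1 + (s.re - C - 1))) < 1 :=
    Real.rpow_lt_one_of_one_lt_of_neg (by exact_mod_cast p.2.one_lt) (by linarith)
  linarith

lemma E1_ne (h : Bdd S a C) {s : ℂ} (hs : C + 1 < s.re) : E1 S a s ≠ 0 :=
  tprod_one_add_ne_zero_of_summable (tm_ne h hs) (tm_norm_sum h hs)

lemma E1_mult (h : Bdd S a C) {s : ℂ} (hs : C + 1 < s.re) :
    HasProd (fun p : Nat.Primes => 1 + tm S a p s) (E1 S a s) :=
  (multipliable_one_add_of_summable (tm_norm_sum h hs)).hasProd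

lemma E1_an (h : Bdd S a C) {s : ℂ} (hs : C + 1 < s.re) : AnalyticAt ℂ (E1 S a) s := by
  set δ : ℝ := (s.re - C - 1) / 2 with hδ
  have hδ0 : 0 < δ := by rw [hδ]; linarith
  set K : Set ℂ := {z : ℂ | C + 1 + δ < z.re} with hK
  have hKo : IsOpen K := isOpen_lt continuous_const Complex.continuous_re
  have hd : ∀ p : Nat.Primes, Differentiable ℂ (tm S a p) := by
    intro p
    have hp : ((p : ℕ) : ℂ) ≠ 0 := by exact_mod_cast p.2.ne_zero
    unfold tm
    split_ifs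
    · fun_prop
    · refine Differentiable.neg (Differentiable.const_mul ?_ _)
      intro z
      exact (differentiableAt_id.neg).const_cpow (Or.inl hp)
  have h1 : HasProdLocallyUniformlyOn (fun (p : Nat.Primes) z => 1 + tm S a p z)
      (fun z => ∏' p : Nat.Primes, (1 + tm S a p z)) K :=
    Summable.hasProdLocallyUniformlyOn_one_add hKo (tm_sum hδ0)
      (Eventually.of_forall fun p z hz => tm_le h p (le_of_lt hz))
      (fun p => (hd p).continuous.continuousOn)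
  have h2 : DifferentiableOn ℂ (E1 S a) K := by
    refine h1.differentiableOn (Eventually.of_forall fun T => ?_) hKo
    have : DifferentiableOn ℂ (fun z => ∏ p ∈ T, (1 + tm S a p z)) K :=
      DifferentiableOn.fun_finsetProd fun p _ => ((hd p).const_add 1).differentiableOn
    simpa [Finset.prod_fn] using this
  exact h2.analyticAt (hKo.mem_nhds (by
    change C + 1 + δ < s.re
    rw [hδ]
    linarith))

lemma EP_nice (h : Bdd S a C) : Nice (EP S a) (C + 1) := fun _ hs =>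
  ⟨(E1_an h hs).fun_inv (E1_ne h hs), inv_ne_zero (E1_ne h hs)⟩

lemma tm_shift (p : Nat.Primes) (t : ℝ) (s : ℂ) :
    tm S (fun p => a p * ((p : ℝ) ^ (-t) : ℝ)) p s = tm S a p (s + t) := by
  unfold tm
  split_ifs
  · rfl
  · have hp : ((p : ℕ) : ℂ) ≠ 0 := by exact_mod_cast p.2.ne_zero
    change -(a p * ((((p : ℕ) : ℝ) ^ (-t) : ℝ) : ℂ) * ((p : ℕ) : ℂ) ^ (-s)) =
      -(a p * ((p : ℕ) : ℂ) ^ (-(s + t)))
    have h0 : (0 : ℝ) ≤ ((p : ℕ) : ℝ) := Nat.cast_nonneg _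
    have h1 : (-(s + (t : ℂ))) = ((-t : ℝ) : ℂ) + -s := by
      push_cast
      ring
    rw [Complex.ofReal_cpow h0, ofReal_natCast, mul_assoc, ← Complex.cpow_add _ _ hp, h1]

lemma EP_shift (t : ℝ) (s : ℂ) :
    EP S (fun p => a p * ((p : ℝ) ^ (-t) : ℝ)) s = EP S a (s + t) := by
  unfold EP E1
  congr 1
  exact tprod_congr fun p => by rw [tm_shift]

/-- A finite product of integral powers of Euler products is an Euler product. -/
theorem prod_EP {ι : Type*} (V : Finset ι) (w : ι → ℕ → ℂ) (f : ι → ℤ) {C : ℝ}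
    (h : ∀ v ∈ V, Bdd S (w v) C) {s : ℂ} (hs : C + 1 < s.re) :
    HasProd (fun p : Nat.Primes => if (p : ℕ) ∈ S then 1 else
      ∏ v ∈ V, (1 - w v p * ((p : ℕ) : ℂ) ^ (-s)) ^ (-f v)) (∏ v ∈ V, EP S (w v) s ^ f v) := by
  have h1 : HasProd (fun p : Nat.Primes => ∏ v ∈ V, (1 + tm S (w v) p s) ^ (-f v))
      (∏ v ∈ V, E1 S (w v) s ^ (-f v)) := by
    refine hasProd_prod fun v hv => ?_
    have h2 := E1_mult (h v hv) hs
    unfold HasProd at h2 ⊢
    simp only [Finset.prod_zpow]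
    exact h2.zpow₀ _ (Or.inl (E1_ne (h v hv) hs))
  have h3 : (fun p : Nat.Primes => if (p : ℕ) ∈ S then 1 else
      ∏ v ∈ V, (1 - w v p * ((p : ℕ) : ℂ) ^ (-s)) ^ (-f v)) =
      fun p : Nat.Primes => ∏ v ∈ V, (1 + tm S (w v) p s) ^ (-f v) := by
    funext p
    split_ifs with hp
    · symm
      refine Finset.prod_eq_one fun v _ => ?_
      simp [tm, hp]
    · refine Finset.prod_congr rfl fun v _ => ?_
      simp [tm, hp, sub_eq_add_neg]
  have h4 : (∏ v ∈ V, EP S (w v) s ^ f v) = ∏ v ∈ V, E1 S (w v) s ^ (-f v) := by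
    refine Finset.prod_congr rfl fun v _ => ?_
    rw [EP, inv_zpow, zpow_neg]
  rw [h3, h4]
  exact h1

end Pool.Agent.R390.SP
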