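import Mathlib
import Pool.Agent.R390.SP.Eul
import Pool.Agent.R390.SP.Defs

/-!
# Families of weights
-/

set_option autoImplicit false

namespace Pool.Agent.R390.SP

open Filter Topology Complex

/-- Evaluation of weights at the primes outside `S`. -/
structure Ctx (X : Type) [AddCommGroup X] (S : Finset ℕ) (ev : ℕ → X → ℂ) : Prop where
  zero : ∀ p : ℕ, p.Prime → p ∉ S → ev p 0 = 1
  add : ∀ p : ℕ, p.Prime → p ∉ S → ∀ x y, ev p (x + y) = ev p x * ev p y
  bdd : ∀ x, ∃ C : ℝ, Bdd S (fun p => ev p x) C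

lemma Bdd.mono {S : Finset ℕ} {a : ℕ → ℂ} {C C' : ℝ} (h : Bdd S a C) (hC : C ≤ C') : Bdd S a C' := by
  intro p hp hS
  refine (h p hp hS).trans (Real.rpow_le_rpow_of_exponent_le ?_ hC)
  exact_mod_cast hp.one_lt.le

variable {X : Type} [AddCommGroup X] {S : Finset ℕ} {ev : ℕ → X → ℂ}

lemma Ctx.unif (h : Ctx X S ev) (V : Finset X) : ∃ C : ℝ, ∀ x ∈ V, Bdd S (fun p => ev p x) C := by
  classical
  induction V using Finset.induction_on with
  | empty => exact ⟨0, by simp⟩
  | insert x V _ ih =>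
    obtain ⟨C, hC⟩ := ih
    obtain ⟨C', hC'⟩ := h.bdd x
    refine ⟨max C C', fun y hy => ?_⟩
    rcases Finset.mem_insert.1 hy with rfl | hy
    · exact hC'.mono (le_max_right _ _)
    · exact (hC y hy).mono (le_max_left _ _)

/-- the `L`-function of an element of the group ring -/
noncomputable def Lam (S : Finset ℕ) (ev : ℕ → X → ℂ) (F : AddMonoidAlgebra ℤ X) (s : ℂ) : ℂ :=
  F.coeff.prod fun x k => EP S (fun p => ev p x) s ^ k

lemma Lam_zero (s : ℂ) : Lam S ev 0 s = 1 := by
  unfold Lam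
  rw [AddMonoidAlgebra.coeff_zero]
  exact Finsupp.prod_zero_index

lemma Lam_add (h : Ctx X S ev) (F G : AddMonoidAlgebra ℤ X) :
    ∃ c : ℝ, ∀ s : ℂ, c < s.re → Lam S ev (F + G) s = Lam S ev F s * Lam S ev G s := by
  classical
  obtain ⟨C, hC⟩ := h.unif (F.coeff.support ∪ G.coeff.support)
  refine ⟨C + 1, fun s hs => ?_⟩
  unfold Lam
  rw [AddMonoidAlgebra.coeff_add]
  refine Finsupp.prod_add_index (fun x _ => zpow_zero _) fun x hx k l => ?_
  exact zpow_add₀ (EP_nice (hC x hx) s hs).2 k l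

lemma Lam_neg (F : AddMonoidAlgebra ℤ X) (s : ℂ) : Lam S ev (-F) s = (Lam S ev F s)⁻¹ := by
  unfold Lam
  rw [AddMonoidAlgebra.coeff_neg, Finsupp.prod, Finsupp.prod, Finsupp.support_neg,
    ← Finset.prod_inv_distrib]
  refine Finset.prod_congr rfl fun x _ => ?_
  rw [Finsupp.neg_apply, zpow_neg]

lemma Lam_single (x : X) (s : ℂ) : Lam S ev (AddMonoidAlgebra.single x 1) s =
    EP S (fun p => ev p x) s := by
  unfold Lam
  rw [AddMonoidAlgebra.coeff_single, Finsupp.prod_single_index (zpow_zero _), zpow_one]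

/-- the elements with a meromorphic continuation -/
noncomputable def merSub (h : Ctx X S ev) : AddSubgroup (AddMonoidAlgebra ℤ X) where
  carrier := {F | HasMero (Lam S ev F)}
  zero_mem' := HasMero.one.congr (c := 0) fun s _ => (Lam_zero s).symm
  add_mem' := by
    intro F G hF hG
    obtain ⟨c, hc⟩ := Lam_add h F G
    exact (HasMero.mul hF hG).congr (c := c) fun s hs => (hc s hs).symm
  neg_mem' := by
    intro F hF
    exact (HasMero.inv hF).congr (c := 0) fun s _ => (Lam_neg F s).symm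

lemma mem_merSub (h : Ctx X S ev) {F : AddMonoidAlgebra ℤ X} :
    F ∈ merSub h ↔ HasMero (Lam S ev F) := Iff.rfl

lemma Lam_sum (h : Ctx X S ev) {ι : Type*} (T : Finset ι) (w : ι → X) :
    ∃ c : ℝ, ∀ s : ℂ, c < s.re → Lam S ev (∑ i ∈ T, AddMonoidAlgebra.single (w i) 1) s =
      ∏ i ∈ T, EP S (fun p => ev p (w i)) s := by
  classical
  induction T using Finset.induction_on with
  | empty => exact ⟨0, fun s _ => by simp [Lam_zero]⟩
  | insert i T hi ih =>
    obtain ⟨c, hc⟩ := ih
    obtain ⟨c', hc'⟩ := Lam_add h (AddMonoidAlgebra.single (w i) 1)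
      (∑ i ∈ T, AddMonoidAlgebra.single (w i) 1)
    refine ⟨max c c', fun s hs => ?_⟩
    rw [Finset.sum_insert hi, Finset.prod_insert hi, hc' s (lt_of_le_of_lt (le_max_right _ _) hs),
      hc s (lt_of_le_of_lt (le_max_left _ _) hs), Lam_single]

lemma EP_congr {a a' : ℕ → ℂ} (h : ∀ p : ℕ, p.Prime → p ∉ S → a p = a' p) (s : ℂ) :
    EP S a s = EP S a' s := by
  unfold EP E1
  congr 1
  refine tprod_congr fun p => ?_
  unfold tm
  split_ifs with hS
  · rfl
  · rw [h p p.2 hS]

lemma Ctx.sum (h : Ctx X S ev) {ι : Type*} (T : Finset ι) (w : ι → X) {p : ℕ} (hp : p.Prime)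
    (hS : p ∉ S) : ev p (∑ i ∈ T, w i) = ∏ i ∈ T, ev p (w i) := by
  classical
  induction T using Finset.induction_on with
  | empty => simpa using h.zero p hp hS
  | insert i T hi ih => rw [Finset.sum_insert hi, Finset.prod_insert hi, h.add p hp hS, ih]

/-- subsets of a disjoint union -/
def sigmaFin {β : Type} [Fintype β] [DecidableEq β] (m : β → ℕ) :
    Finset (Σ i, Fin (m i)) ≃ (∀ i, Finset (Fin (m i))) where
  toFun J i := Finset.univ.filter fun l => (⟨i, l⟩ : Σ i, Fin (m i)) ∈ J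
  invFun J := Finset.univ.sigma J
  left_inv J := by
    ext ⟨i, l⟩
    simp
  right_inv J := by
    funext i
    ext l
    simp

/-- superincreasing weights -/
lemma exists_weights {β : Type} [Fintype β] (M : ℕ) : ∃ wt : β → ℕ, ∀ j j' : β → ℕ,
    (∀ i, j i < M) → (∀ i, j' i < M) → ∑ i, wt i * j i = ∑ i, wt i * j' i → j = j' := by
  classical
  let e := Fintype.equivFin β
  refine ⟨fun i => M ^ (e i : ℕ), fun j j' hj hj' h => ?_⟩
  have key : ∀ (f : β → ℕ) (hf : ∀ i, f i < M),
      (finFunctionFinEquiv (fun i : Fin (Fintype.card β) => (⟨f (e.symm i), hf _⟩ : Fin M)) : ℕ) =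
        ∑ i, M ^ (e i : ℕ) * f i := by
    intro f hf
    rw [finFunctionFinEquiv_apply, ← Equiv.sum_comp e]
    refine Finset.sum_congr rfl fun i _ => ?_
    simp [mul_comm]
  have h2 := (key j hj).trans (h.trans (key j' hj').symm)
  have h3 := finFunctionFinEquiv.injective (Fin.ext h2)
  funext i
  have h4 := congrArg Fin.val (congrFun h3 (e i))
  simpa using h4

end Pool.Agent.R390.SP
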