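import Mathlib
import Pool.Agent.R390.SP.Ctx

/-!
# The pieces of the spin `L`-functions of induced representations
-/

set_option autoImplicit false

namespace Pool.Agent.R390.SP

open Filter Topology Complex

variable {X : Type} [AddCommGroup X] {S : Finset ℕ} {ev : ℕ → X → ℂ}

lemma norm_rpow_le_one {p : ℕ} (hp : p.Prime) {x : ℝ} (hx : 0 ≤ x) : ‖(p : ℝ) ^ (-x)‖ ≤ 1 := by
  rw [Real.norm_of_nonneg (Real.rpow_nonneg (Nat.cast_nonneg _) _)]
  refine Real.rpow_le_one_of_one_le_of_nonpos ?_ (by linarith)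
  exact_mod_cast hp.one_lt.le

/-- the elementary symmetric function of the weights `w` -/
noncomputable def es {κ : Type} [Fintype κ] (w : κ → X) (j : ℕ) : AddMonoidAlgebra ℤ X :=
  ∑ J ∈ Finset.powersetCard j Finset.univ, AddMonoidAlgebra.single (∑ l ∈ J, w l) 1

lemma prod_single {ι : Type*} (T : Finset ι) (g : ι → X) :
    ∏ i ∈ T, (AddMonoidAlgebra.single (g i) 1 : AddMonoidAlgebra ℤ X) =
      AddMonoidAlgebra.single (∑ i ∈ T, g i) 1 := by
  classical
  induction T using Finset.induction_on with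
  | empty => simp [AddMonoidAlgebra.one_def]
  | insert i T hi ih =>
    rw [Finset.prod_insert hi, Finset.sum_insert hi, ih, AddMonoidAlgebra.single_mul_single, one_mul]

section

variable {β : Type} [Fintype β] [DecidableEq β] {m : β → ℕ} {n : ℕ}

/-- the weight of a family of subsets -/
def wgt (u₀ : X) (u : Fin n → X) (w : ∀ i, Fin (m i) → X)
    (k : Finset (Fin n) × (∀ i, Finset (Fin (m i)))) : X :=
  u₀ + (∑ i ∈ k.1, u i + ∑ i, ∑ l ∈ k.2 i, w i l)

lemma expand (u₀ : X) (u : Fin n → X) (w : ∀ i, Fin (m i) → X) (j : β → ℕ) :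
    (∑ I : Finset (Fin n), (AddMonoidAlgebra.single (u₀ + ∑ i ∈ I, u i) 1 : AddMonoidAlgebra ℤ X)) *
      ∏ i, es (w i) (j i) =
    ∑ k ∈ Finset.univ ×ˢ Fintype.piFinset (fun i => Finset.powersetCard (j i) Finset.univ),
      AddMonoidAlgebra.single (wgt u₀ u w k) 1 := by
  unfold es
  rw [Finset.prod_univ_sum, Finset.sum_mul_sum, ← Finset.sum_product']
  refine Finset.sum_congr rfl fun k _ => ?_
  rw [prod_single, AddMonoidAlgebra.single_mul_single, one_mul, wgt, add_assoc]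

/-- families of subsets -/
def famEquiv {N : ℕ} (e : Fin N ≃ Fin n ⊕ (Σ i, Fin (m i))) :
    Finset (Fin N) ≃ Finset (Fin n) × (∀ i, Finset (Fin (m i))) :=
  (Equiv.finsetCongr e).trans
    (Finset.sumEquiv.toEquiv.trans (Equiv.prodCongr (Equiv.refl _) (sigmaFin m)))

lemma famEquiv_symm {N : ℕ} (e : Fin N ≃ Fin n ⊕ (Σ i, Fin (m i)))
    (k : Finset (Fin n) × (∀ i, Finset (Fin (m i)))) (F : Fin n ⊕ (Σ i, Fin (m i)) → ℂ) :
    ∏ j ∈ (famEquiv e).symm k, F (e j) =
      (∏ i ∈ k.1, F (Sum.inl i)) * ∏ i, ∏ l ∈ k.2 i, F (Sum.inr ⟨i, l⟩) := by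
  have h1 : (famEquiv e).symm k = (k.1.disjSum (Finset.univ.sigma k.2)).map e.symm.toEmbedding := rfl
  rw [h1, Finset.prod_map]
  simp only [Equiv.coe_toEmbedding, Equiv.apply_symm_apply]
  rw [Finset.prod_disjSum, Finset.prod_sigma]

end

theorem piece0 (A : Automorphic) {N : ℕ}
    (hN : ∀ (S : Finset ℕ) (b₀ : ℕ → ℂ) (b : ℕ → Fin N → ℂ), A.IsGSp N S b₀ b →
      HasMero (spinL S b₀ b))
    (h : Ctx X S ev) {n : ℕ} {b₀ : ℕ → ℂ} {b : ℕ → Fin n → ℂ} (hπ : A.IsGSp n S b₀ b)
    {β : Type} [Fintype β] [DecidableEq β] {m : β → ℕ} {a : ∀ i, ℕ → Fin (m i) → ℂ}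
    (ha : ∀ i, A.IsGL (m i) S (a i)) (hcard : Fintype.card (Fin n ⊕ (Σ i, Fin (m i))) = N)
    (u₀ : X) (u : Fin n → X) (w : ∀ i, Fin (m i) → X)
    (hu₀ : ∀ p : ℕ, p.Prime → p ∉ S → b₀ p = ev p u₀)
    (hu : ∀ p : ℕ, p.Prime → p ∉ S → ∀ i, b p i = ev p (u i))
    (hw : ∀ p : ℕ, p.Prime → p ∉ S → ∀ i l, a i p l = ev p (w i l)) (j : β → ℕ) :
    (∑ I : Finset (Fin n), (AddMonoidAlgebra.single (u₀ + ∑ i ∈ I, u i) 1 : AddMonoidAlgebra ℤ X)) *
      ∏ i, es (w i) (j i) ∈ merSub h := by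
  classical
  rw [expand]
  set T : Finset (Finset (Fin n) × (∀ i, Finset (Fin (m i)))) :=
    Finset.univ ×ˢ Fintype.piFinset (fun i => Finset.powersetCard (j i) Finset.univ) with hT
  rcases T.eq_empty_or_nonempty with hTe | ⟨k0, hk0⟩
  · rw [hTe, Finset.sum_empty]
    exact zero_mem _
  obtain ⟨wt, hwt⟩ := exists_weights (β := β) (∑ i, m i + 1)
  set dg : (Finset (Fin n) × (∀ i, Finset (Fin (m i)))) → ℕ := fun k => ∑ i, wt i * (k.2 i).card
    with hdg
  set y := wgt u₀ u w with hy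
  obtain ⟨C, hC⟩ := h.unif (Finset.univ.image y)
  have hC' : ∀ k, Bdd S (fun p => ev p (y k)) C := fun k =>
    hC _ (Finset.mem_image_of_mem _ (Finset.mem_univ k))
  set G : ℕ → ℂ → ℂ := fun d s => ∏ k ∈ Finset.univ.filter (fun k => dg k = d),
    EP S (fun p => ev p (y k)) s with hG
  have hnice : ∀ d ∈ Finset.univ.image dg, Nice (G d) (C + 1) := by
    intro d _ s hs
    refine ⟨?_, ?_⟩
    · exact Finset.analyticAt_fun_prod _ fun k _ => (EP_nice (hC' k) s hs).1
    · exact Finset.prod_ne_zero_iff.2 fun k _ => (EP_nice (hC' k) s hs).2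
  have e : Fin N ≃ Fin n ⊕ (Σ i, Fin (m i)) := (Fintype.equivFinOfCardEq hcard).symm
  have hiso := isolate (G := G) (c := C + 1) (Finset.univ.image dg) hnice (by
    intro T0
    refine ⟨max T0 0, le_max_left _ _, ?_⟩
    set t : ℝ := max T0 0 with ht
    have ht0 : 0 ≤ t := le_max_right _ _
    set bt : ℕ → Fin N → ℂ := fun p j =>
      Sum.elim (b p) (fun x => a x.1 p x.2 * (((p : ℝ) ^ (-(t * wt x.1)) : ℝ) : ℂ)) (e j) with hbt
    have hind : A.IsGSp N S b₀ bt := A.induced hπ m a ha (fun i => t * wt i) N e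
    refine (hN S b₀ bt hind).congr (c := C + 1) fun s hs => ?_
    -- the weights
    set W : (Finset (Fin n) × (∀ i, Finset (Fin (m i)))) → ℕ → ℂ := fun k p =>
      b₀ p * ∏ j ∈ (famEquiv e).symm k, bt p j with hW
    have hWev : ∀ k, ∀ p : ℕ, p.Prime → p ∉ S →
        W k p = ev p (y k) * (((p : ℝ) ^ (-(t * dg k)) : ℝ) : ℂ) := by
      intro k p hp hS
      have hp0 : (0 : ℝ) < p := by exact_mod_cast hp.pos
      rw [hW]
      simp only [hbt]
      rw [famEquiv_symm e k (fun x => Sum.elim (b p)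
        (fun x => a x.1 p x.2 * (((p : ℝ) ^ (-(t * wt x.1)) : ℝ) : ℂ)) x)]
      simp only [Sum.elim_inl, Sum.elim_inr]
      simp only [Finset.prod_mul_distrib, Finset.prod_const]
      rw [hy, wgt, h.add p hp hS, h.add p hp hS, h.sum _ _ hp hS, h.sum _ _ hp hS, hu₀ p hp hS]
      have e1 : ∏ i ∈ k.1, b p i = ∏ i ∈ k.1, ev p (u i) :=
        Finset.prod_congr rfl fun i _ => hu p hp hS i
      have e2 : ∏ i, ∏ l ∈ k.2 i, a i p l = ∏ i, ev p (∑ l ∈ k.2 i, w i l) := by
        refine Finset.prod_congr rfl fun i _ => ?_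
        rw [h.sum _ _ hp hS]
        exact Finset.prod_congr rfl fun l _ => hw p hp hS i l
      have e3 : ∏ i, ((((p : ℝ) ^ (-(t * wt i)) : ℝ) : ℂ)) ^ (k.2 i).card =
          (((p : ℝ) ^ (-(t * dg k)) : ℝ) : ℂ) := by
        rw [hdg]
        have : ∀ i, ((((p : ℝ) ^ (-(t * wt i)) : ℝ) : ℂ)) ^ (k.2 i).card =
            (((p : ℝ) ^ (-(t * wt i) * (k.2 i).card) : ℝ) : ℂ) := by
          intro i
          rw [Real.rpow_mul_natCast hp0.le]
          push_cast
          rfl
        simp only [this]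
        rw [← Complex.ofReal_prod, ← Real.rpow_sum_of_pos hp0]
        congr 2
        push_cast
        rw [Finset.mul_sum, ← Finset.sum_neg_distrib]
        refine Finset.sum_congr rfl fun i _ => ?_
        ring
      rw [e1, e2, e3]
      ring
    have hWB : ∀ k, Bdd S (W k) C := by
      intro k p hp hS
      rw [hWev k p hp hS, norm_mul, Complex.norm_real]
      have h1 : ‖(p : ℝ) ^ (-(t * dg k))‖ ≤ 1 :=
        norm_rpow_le_one hp (mul_nonneg ht0 (Nat.cast_nonneg _))
      exact (mul_le_mul (hC' k p hp hS) h1 (norm_nonneg _)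
        (Real.rpow_nonneg (Nat.cast_nonneg _) _)).trans (mul_one _).le
    have h1 : spinL S b₀ bt s = ∏ k, EP S (W k) s := by
      have h2 := prod_EP Finset.univ W (fun _ => (1 : ℤ)) (fun k _ => hWB k) hs
      simp only [zpow_one] at h2
      rw [← h2.tprod_eq]
      unfold spinL
      refine tprod_congr fun p => ?_
      split_ifs
      · rfl
      · rw [← Equiv.prod_comp (famEquiv e).symm]
        refine Finset.prod_congr rfl fun k _ => ?_
        rw [zpow_neg_one]
    rw [h1]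
    have h3 : ∀ k, EP S (W k) s = EP S (fun p => ev p (y k)) (s + (t * dg k : ℝ)) := by
      intro k
      rw [EP_congr (hWev k), EP_shift]
    simp only [h3]
    rw [← Finset.prod_fiberwise_of_maps_to (g := dg)
      (fun k _ => Finset.mem_image_of_mem dg (Finset.mem_univ k))]
    refine Finset.prod_congr rfl fun d _ => ?_
    rw [hG]
    refine Finset.prod_congr rfl fun k hk => ?_
    rw [(Finset.mem_filter.1 hk).2])
  have hmemT : ∀ k, k ∈ T ↔ ∀ i, (k.2 i).card = j i := by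
    intro k
    rw [hT, Finset.mem_product, Fintype.mem_piFinset]
    simp
  have hlt : ∀ (k : Finset (Fin n) × (∀ i, Finset (Fin (m i)))) i, (k.2 i).card < ∑ i, m i + 1 := by
    intro k i
    have h1 : (k.2 i).card ≤ m i := by
      have := Finset.card_le_univ (k.2 i)
      simpa using this
    have h2 : m i ≤ ∑ i, m i := Finset.single_le_sum (fun _ _ => Nat.zero_le _) (Finset.mem_univ i)
    omega
  have hfil : Finset.univ.filter (fun k => dg k = dg k0) = T := by
    ext k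
    rw [Finset.mem_filter, hmemT]
    have hk0' := (hmemT k0).1 hk0
    constructor
    · rintro ⟨-, hk⟩ i
      rw [← hk0' i]
      exact congrFun (hwt _ _ (hlt k) (hlt k0) hk) i
    · intro hk
      refine ⟨Finset.mem_univ _, ?_⟩
      rw [hdg]
      refine Finset.sum_congr rfl fun i _ => ?_
      rw [hk i, hk0' i]
  have h5 := hiso (dg k0) (Finset.mem_image_of_mem _ (Finset.mem_univ _))
  rw [mem_merSub]
  obtain ⟨c, hc⟩ := Lam_sum h T y
  refine h5.congr (c := c) fun s hs => ?_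
  rw [hc s hs, hG]
  simp only [hfil]

end Pool.Agent.R390.SP
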