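import Mathlib
import Pool.Agent.R390.SP.Piece

/-!
# The pieces, for infinitely many `N`
-/

set_option autoImplicit false

namespace Pool.Agent.R390.SP

open Filter Topology Complex

variable {X : Type} [AddCommGroup X] {S : Finset ℕ} {ev : ℕ → X → ℂ}

lemma es_zero {κ : Type} [Fintype κ] (w : κ → X) : es w 0 = 1 := by
  simp [es, AddMonoidAlgebra.one_def]

/-- the spin `L`-functions of `GSp_{2N}` are continued for infinitely many `N` -/
def SpinHyp (A : Automorphic) : Prop :=
  ∀ M : ℕ, ∃ N : ℕ, M ≤ N ∧ ∀ (S : Finset ℕ) (b₀ : ℕ → ℂ) (b : ℕ → Fin N → ℂ), A.IsGSp N S b₀ b →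
    HasMero (spinL S b₀ b)

theorem piece (A : Automorphic) (hA : SpinHyp A)
    (h : Ctx X S ev) {n : ℕ} {b₀ : ℕ → ℂ} {b : ℕ → Fin n → ℂ} (hπ : A.IsGSp n S b₀ b)
    {β : Type} [Fintype β] [DecidableEq β] {m : β → ℕ} {a : ∀ i, ℕ → Fin (m i) → ℂ}
    (ha : ∀ i, A.IsGL (m i) S (a i))
    (u₀ : X) (u : Fin n → X) (w : ∀ i, Fin (m i) → X)
    (hu₀ : ∀ p : ℕ, p.Prime → p ∉ S → b₀ p = ev p u₀)
    (hu : ∀ p : ℕ, p.Prime → p ∉ S → ∀ i, b p i = ev p (u i))
    (hw : ∀ p : ℕ, p.Prime → p ∉ S → ∀ i l, a i p l = ev p (w i l)) (j : β → ℕ) :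
    (∑ I : Finset (Fin n), (AddMonoidAlgebra.single (u₀ + ∑ i ∈ I, u i) 1 : AddMonoidAlgebra ℤ X)) *
      ∏ i, es (w i) (j i) ∈ merSub h := by
  classical
  obtain ⟨N, hN, hsp⟩ := hA (n + ∑ i, m i)
  set r : ℕ := N - (n + ∑ i, m i) with hr
  have htriv : A.IsGL 1 S (fun _ _ => 1) := by
    have := A.central_gsp hπ 0
    simpa only [zpow_zero] using this
  set m' : β ⊕ Fin r → ℕ := fun i => Sum.elim m (fun _ => 1) i with hm'
  let a' : ∀ i, ℕ → Fin (m' i) → ℂ := fun i => match i with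
    | Sum.inl i => a i
    | Sum.inr _ => fun _ _ => 1
  let w' : ∀ i, Fin (m' i) → X := fun i => match i with
    | Sum.inl i => w i
    | Sum.inr _ => fun _ => 0
  have ha' : ∀ i, A.IsGL (m' i) S (a' i) := by
    rintro (i | i)
    · exact ha i
    · exact htriv
  have hw' : ∀ p : ℕ, p.Prime → p ∉ S → ∀ i l, a' i p l = ev p (w' i l) := by
    intro p hp hS
    rintro (i | i) l
    · exact hw p hp hS i l
    · exact (h.zero p hp hS).symm
  have hcard : Fintype.card (Fin n ⊕ (Σ i, Fin (m' i))) = N := by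
    rw [Fintype.card_sum, Fintype.card_sigma, Fintype.sum_sum_type]
    simp only [hm', Sum.elim_inl, Sum.elim_inr, Fintype.card_fin]
    simp only [Finset.sum_const, Finset.card_univ, Fintype.card_fin, smul_eq_mul, mul_one]
    omega
  have key := piece0 A hsp h hπ ha' hcard u₀ u w' hu₀ hu hw' (Sum.elim j fun _ => 0)
  rw [Fintype.prod_sum_type] at key
  have e1 : ∏ i : Fin r, es (w' (Sum.inr i)) (Sum.elim j (fun _ => 0) (Sum.inr i : β ⊕ Fin r)) = 1 :=
    Finset.prod_eq_one fun i _ => by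
      rw [Sum.elim_inr]
      exact es_zero _
  rw [e1, mul_one] at key
  exact key

/-- reindexing -/
lemma es_equiv {κ κ' : Type} [Fintype κ] [Fintype κ'] (e : κ' ≃ κ) (w : κ → X) (j : ℕ) :
    es (fun l => w (e l)) j = es w j := by
  classical
  unfold es
  refine Finset.sum_bij' (fun J _ => J.map e.toEmbedding) (fun J _ => J.map e.symm.toEmbedding)
    ?_ ?_ ?_ ?_ ?_
  · intro J hJ
    rw [Finset.mem_powersetCard] at hJ ⊢
    exact ⟨Finset.subset_univ _, by rw [Finset.card_map]; exact hJ.2⟩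
  · intro J hJ
    rw [Finset.mem_powersetCard] at hJ ⊢
    exact ⟨Finset.subset_univ _, by rw [Finset.card_map]; exact hJ.2⟩
  · intro J _
    ext x
    simp
  · intro J _
    ext x
    simp
  · intro J _
    rw [Finset.sum_map]
    rfl

/-- a subring generated by a family, multiplied by a fixed element -/
lemma mul_closure_mem {R : Type*} [CommRing R] (H : AddSubgroup R) (B : R) (E : ℕ → R)
    (h : ∀ l : List ℕ, B * (l.map E).prod ∈ H) {x : R} (hx : x ∈ Subring.closure (Set.range E)) :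
    B * x ∈ H := by
  rw [Subring.mem_closure_iff] at hx
  induction hx using AddSubgroup.closure_induction with
  | mem x hx =>
    have : ∃ l : List ℕ, x = (l.map E).prod := by
      induction hx using Submonoid.closure_induction with
      | mem x hx =>
        obtain ⟨j, rfl⟩ := hx
        exact ⟨[j], by simp⟩
      | one => exact ⟨[], by simp⟩
      | mul x y _ _ hx hy =>
        obtain ⟨l, rfl⟩ := hx
        obtain ⟨l', rfl⟩ := hy
        exact ⟨l ++ l', by simp⟩
    obtain ⟨l, rfl⟩ := this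
    exact h l
  | zero => simpa using zero_mem H
  | add x y _ _ hx hy =>
    rw [mul_add]
    exact add_mem hx hy
  | neg x _ hx =>
    rw [mul_neg]
    exact neg_mem hx

/-- the form in which the pieces are used: one family `w` with repetition and one character -/
theorem piece_list (A : Automorphic) (hA : SpinHyp A)
    (h : Ctx X S ev) {n : ℕ} {b₀ : ℕ → ℂ} {b : ℕ → Fin n → ℂ} (hπ : A.IsGSp n S b₀ b)
    {m : ℕ} {a : ℕ → Fin m → ℂ} (ha : A.IsGL m S a) {c : ℕ → ℂ} (hc : A.IsGL 1 S (fun p _ => c p))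
    (u₀ : X) (u : Fin n → X) (w : Fin m → X) (z : X)
    (hu₀ : ∀ p : ℕ, p.Prime → p ∉ S → b₀ p = ev p u₀)
    (hu : ∀ p : ℕ, p.Prime → p ∉ S → ∀ i, b p i = ev p (u i))
    (hw : ∀ p : ℕ, p.Prime → p ∉ S → ∀ l, a p l = ev p (w l))
    (hz : ∀ p : ℕ, p.Prime → p ∉ S → c p = ev p z) {x : AddMonoidAlgebra ℤ X}
    (hx : x ∈ Subring.closure (Set.range (es w))) :
    (AddMonoidAlgebra.single z 1 *
      ∑ I : Finset (Fin n), (AddMonoidAlgebra.single (u₀ + ∑ i ∈ I, u i) 1 : AddMonoidAlgebra ℤ X)) *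
        x ∈ merSub h := by
  classical
  refine mul_closure_mem (merSub h) _ (es w) (fun l => ?_) hx
  let m' : Fin l.length ⊕ Unit → ℕ := fun i => Sum.elim (fun _ => m) (fun _ => 1) i
  let a' : ∀ i, ℕ → Fin (m' i) → ℂ := fun i => match i with
    | Sum.inl _ => a
    | Sum.inr _ => fun p _ => c p
  let w' : ∀ i, Fin (m' i) → X := fun i => match i with
    | Sum.inl _ => w
    | Sum.inr _ => fun _ => z
  have ha' : ∀ i, A.IsGL (m' i) S (a' i) := by
    rintro (i | i)
    · exact ha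
    · exact hc
  have hw' : ∀ p : ℕ, p.Prime → p ∉ S → ∀ i l, a' i p l = ev p (w' i l) := by
    intro p hp hS
    rintro (i | i) l
    · exact hw p hp hS l
    · exact hz p hp hS
  have key := piece A hA h hπ ha' u₀ u w' hu₀ hu hw' (Sum.elim (fun i => l.get i) fun _ => 1)
  rw [Fintype.prod_sum_type] at key
  have e1 : ∏ i : Fin l.length, es (w' (Sum.inl i))
      (Sum.elim (fun i => l.get i) (fun _ => 1) (Sum.inl i : Fin l.length ⊕ Unit)) =
      (l.map (es w)).prod := by
    rw [← Fin.prod_univ_fun_getElem]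
    rfl
  have e2 : ∏ i : Unit, es (w' (Sum.inr i))
      (Sum.elim (fun i => l.get i) (fun _ => 1) (Sum.inr i : Fin l.length ⊕ Unit)) =
      AddMonoidAlgebra.single z 1 := by
    rw [Fintype.prod_unique]
    change es (fun _ : Fin 1 => z) 1 = _
    simp [es, Finset.powersetCard_one]
  rw [e1, e2] at key
  have e3 : ∀ P Q R : AddMonoidAlgebra ℤ X, P * Q * R = Q * (R * P) := fun P Q R => by ring
  rw [e3]
  exact key

end Pool.Agent.R390.SP
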