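import Mathlib
import Pool.Agent.R390.SP.Pad

/-!
# Symmetric functions
-/

set_option autoImplicit false

namespace Pool.Agent.R390.SP

open MvPolynomial

section

variable {R : Type*} [CommRing R]

/-- the elementary symmetric functions of `x` -/
noncomputable def ey {κ : Type*} [Fintype κ] (x : κ → R) (j : ℕ) : R :=
  ∑ J ∈ Finset.powersetCard j Finset.univ, ∏ l ∈ J, x l

lemma aeval_esymm {κ : Type*} [Fintype κ] (x : κ → R) (j : ℕ) :
    aeval x (esymm κ ℤ j) = ey x j := by
  simp [esymm, ey, map_sum, map_prod]

lemma aeval_mem {κ : Type*} {T : Subring R} (v : κ → R) (hv : ∀ i, v i ∈ T)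
    (Q : MvPolynomial κ ℤ) : aeval v Q ∈ T := by
  induction Q using MvPolynomial.induction_on with
  | C a =>
    rw [aeval_C]
    exact intCast_mem T a
  | add p q hp hq =>
    rw [map_add]
    exact add_mem hp hq
  | mul_X p i hp =>
    rw [map_mul, aeval_X]
    exact mul_mem hp (hv i)

/-- a symmetric polynomial in `x` is in the ring generated by the elementary ones -/
lemma sym_mem {m : ℕ} (x : Fin m → R) {P : MvPolynomial (Fin m) ℤ} (hP : P.IsSymmetric) :
    aeval x P ∈ Subring.closure (Set.range (ey x)) := by
  obtain ⟨Q, hQ⟩ := (esymmAlgHom_fin_surjective ℤ (le_refl m)) ⟨P, hP⟩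
  have h1 : P = aeval (fun i : Fin m => esymm (Fin m) ℤ (i + 1)) Q := by
    have := congrArg Subtype.val hQ
    rw [esymmAlgHom_apply] at this
    exact this.symm
  have h2 : aeval x P = aeval (fun i : Fin m => ey x (i + 1)) Q := by
    rw [h1, ← AlgHom.comp_apply]
    congr 1
    refine MvPolynomial.algHom_ext fun i => ?_
    rw [AlgHom.comp_apply, aeval_X, aeval_X, aeval_esymm]
  rw [h2]
  exact aeval_mem _ (fun i => Subring.subset_closure (Set.mem_range_self _)) Q

/-- all coefficients are in the subring -/
def CoefIn (T : Subring R) (P : Polynomial R) : Prop := ∀ j, P.coeff j ∈ T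

open Polynomial in
lemma prod_coef {κ : Type*} [Fintype κ] [DecidableEq κ] (x : κ → R) (j : ℕ) :
    (∏ l, (1 + Polynomial.C (x l) * Polynomial.X)).coeff j = ey x j := by
  rw [Finset.prod_one_add, Polynomial.finsetSum_coeff, ey, Finset.powersetCard_eq_filter,
    Finset.sum_filter]
  refine Finset.sum_congr rfl fun t _ => ?_
  rw [Finset.prod_mul_distrib, Finset.prod_const, ← map_prod, Polynomial.coeff_C_mul_X_pow]
  simp only [eq_comm]

lemma coefIn_of_mul {T : Subring R} {P : Polynomial R} (h : CoefIn T (P * (1 + Polynomial.X))) :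
    CoefIn T P := by
  intro j
  induction j with
  | zero =>
    have := h 0
    rwa [mul_add, mul_one, Polynomial.coeff_add, Polynomial.mul_coeff_zero, Polynomial.coeff_X_zero,
      mul_zero, add_zero] at this
  | succ j ih =>
    have := h (j + 1)
    rw [mul_add, mul_one, Polynomial.coeff_add, Polynomial.coeff_mul_X] at this
    simpa using sub_mem this ih

/-- from the coefficients of `∏ (1 + y i X + X²)` to the elementary symmetric functions of `y` -/
lemma ey_mem {n : ℕ} (y : Fin n → R) {T : Subring R}
    (h : CoefIn T (∏ i, (1 + Polynomial.C (y i) * Polynomial.X + Polynomial.X ^ 2))) (j : ℕ) :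
    ey y j ∈ T := by
  classical
  induction j using Nat.strong_induction_on with
  | _ j ih =>
    -- the expansion
    have h1 : ∏ i, (1 + Polynomial.C (y i) * Polynomial.X + Polynomial.X ^ 2) =
        ∑ t : Finset (Fin n), Polynomial.C (∏ i ∈ t, y i) * (Polynomial.X ^ t.card *
          ((1 + Polynomial.X ^ 2 : Polynomial ℤ) ^ (n - t.card)).map (Int.castRingHom R)) := by
      have e1 : ∀ i, (1 + Polynomial.C (y i) * Polynomial.X + Polynomial.X ^ 2 : Polynomial R) =
          Polynomial.C (y i) * Polynomial.X + (1 + Polynomial.X ^ 2) := fun i => by ring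
      simp only [e1]
      rw [Finset.prod_add, Finset.powerset_univ]
      refine Finset.sum_congr rfl fun t _ => ?_
      rw [Finset.prod_mul_distrib, Finset.prod_const, Finset.prod_const, ← map_prod,
        Finset.card_sdiff_of_subset (Finset.subset_univ t), Finset.card_univ, Fintype.card_fin]
      simp only [Polynomial.map_pow, Polynomial.map_add, Polynomial.map_one, Polynomial.map_X]
      ring
    have h2 := h j
    rw [h1, Polynomial.finsetSum_coeff] at h2
    simp only [Polynomial.coeff_C_mul, Polynomial.coeff_X_pow_mul'] at h2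
    rw [← Finset.sum_fiberwise_of_maps_to (g := fun t : Finset (Fin n) => t.card)
      (t := Finset.range (n + 1)) (fun t _ => Finset.mem_range.2 (by
        have := Finset.card_le_univ t
        simp at this
        omega))] at h2
    have h3 : ∀ c ∈ Finset.range (n + 1), ∑ t ∈ Finset.univ.filter (fun t : Finset (Fin n) =>
        t.card = c), (∏ i ∈ t, y i) * (if t.card ≤ j then
          (((1 + Polynomial.X ^ 2 : Polynomial ℤ) ^ (n - t.card)).map
            (Int.castRingHom R)).coeff (j - t.card) else 0) =
        ey y c * (if c ≤ j then (((((1 + Polynomial.X ^ 2 : Polynomial ℤ) ^ (n - c)).coeff (j - c) : ℤ)) : R)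
          else 0) := by
      intro c _
      rw [ey, Finset.powersetCard_eq_filter, Finset.powerset_univ, Finset.sum_mul]
      refine Finset.sum_congr rfl fun t ht => ?_
      rw [(Finset.mem_filter.1 ht).2, Polynomial.coeff_map]
      rfl
    rw [Finset.sum_congr rfl h3] at h2
    by_cases hjn : n < j
    · have : ey y j = 0 := by
        rw [ey, Finset.powersetCard_eq_empty.2 (by simpa using hjn), Finset.sum_empty]
      rw [this]
      exact zero_mem T
    · have hj : j ∈ Finset.range (n + 1) := Finset.mem_range.2 (by omega)
      rw [← Finset.add_sum_erase _ _ hj] at h2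
      have h4 : ∑ c ∈ (Finset.range (n + 1)).erase j, ey y c * (if c ≤ j then
          (((((1 + Polynomial.X ^ 2 : Polynomial ℤ) ^ (n - c)).coeff (j - c) : ℤ)) : R) else 0) ∈ T := by
        refine sum_mem fun c hc => ?_
        split_ifs with hcj
        · have : c < j := lt_of_le_of_ne hcj (Finset.ne_of_mem_erase hc)
          exact mul_mem (ih c this) (intCast_mem T _)
        · rw [mul_zero]
          exact zero_mem T
      have h5 := sub_mem h2 h4
      rw [add_sub_cancel_right, if_pos le_rfl, Nat.sub_self, Polynomial.coeff_zero_eq_eval_zero] at h5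
      simpa using h5

end

end Pool.Agent.R390.SP
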