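import Mathlib
import Pool.Agent.R390.SP.Alg1

/-!
# Functions invariant under the Weyl group
-/

set_option autoImplicit false

namespace Pool.Agent.R390.SP

/-- the class `{k + ε, -k}` -/
def cls (ε k : ℕ) : Finset ℤ := {(k : ℤ) + ε, -(k : ℤ)}

/-- the index of the class of `x` -/
def kap (ε : ℕ) (x : ℤ) : ℕ := if (ε : ℤ) ≤ x then (x - ε).toNat else (-x).toNat

lemma mem_cls {ε : ℕ} (hε : ε = 0 ∨ ε = 1) (k : ℕ) (x : ℤ) : x ∈ cls ε k ↔ kap ε x = k := by
  unfold cls kap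
  rw [Finset.mem_insert, Finset.mem_singleton]
  rcases hε with rfl | rfl
  · split_ifs <;> omega
  · split_ifs <;> omega

lemma kap_rep {ε : ℕ} (hε : ε = 0 ∨ ε = 1) (k : ℕ) : kap ε ((k : ℤ) + ε) = k :=
  (mem_cls hε k _).1 (by simp [cls])

lemma rep_kap {ε : ℕ} (hε : ε = 0 ∨ ε = 1) (x : ℤ) :
    ((kap ε x : ℕ) : ℤ) + ε = x ∨ ((kap ε x : ℕ) : ℤ) + ε = ε - x := by
  have h := (mem_cls hε (kap ε x) x).2 rfl
  unfold cls at h
  rw [Finset.mem_insert, Finset.mem_singleton] at h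
  omega

/-- the polynomials of the classes -/
lemma exists_phi {ε : ℕ} (hε : ε = 0 ∨ ε = 1) (k : ℕ) : ∃ Φ : Polynomial ℤ,
    ∀ (R : Type) [CommRing R] (bp : ℤ → R), bp 0 = 1 → (∀ k l, bp (k + l) = bp k * bp l) →
      ∑ x ∈ cls ε k, bp x = (1 + bp 1) ^ ε * Polynomial.aeval (bp 1 + bp (-1)) Φ := by
  have hrec : ∀ k : ℕ, ∃ Φ Ψ : Polynomial ℤ,
      ∀ (R : Type) [CommRing R] (bp : ℤ → R), bp 0 = 1 → (∀ k l, bp (k + l) = bp k * bp l) →
      bp ((k : ℤ) + ε) + bp (-(k : ℤ)) = (1 + bp 1) ^ ε * Polynomial.aeval (bp 1 + bp (-1)) Φ ∧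
      bp (((k + 1 : ℕ) : ℤ) + ε) + bp (-((k + 1 : ℕ) : ℤ)) =
        (1 + bp 1) ^ ε * Polynomial.aeval (bp 1 + bp (-1)) Ψ := by
    intro k
    induction k with
    | zero =>
      rcases hε with rfl | rfl
      · refine ⟨2, Polynomial.X, fun R _ bp h0 ha => ⟨?_, ?_⟩⟩
        · simp only [Nat.cast_zero, add_zero, neg_zero, h0, pow_zero, one_mul, map_ofNat]
          norm_num
        · simp
      · refine ⟨1, Polynomial.X - 1, fun R _ bp h0 ha => ⟨?_, ?_⟩⟩
        · simp [h0, add_comm]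
        · have e1 : bp 1 * bp (-1) = 1 := by rw [← ha, ← h0]; norm_num
          have e2 : bp 2 = bp 1 * bp 1 := by rw [← ha]; norm_num
          simp only [Nat.cast_one, zero_add, pow_one, map_sub, Polynomial.aeval_X,
            map_one]
          norm_num
          rw [e2]
          linear_combination (-1 : R) * e1
    | succ k ih =>
      obtain ⟨Φ, Ψ, h⟩ := ih
      refine ⟨Ψ, Polynomial.X * Ψ - Φ, fun R _ bp h0 ha => ⟨(h R bp h0 ha).2, ?_⟩⟩
      obtain ⟨h1, h2⟩ := h R bp h0 ha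
      have e1 : bp 1 * bp (-1) = 1 := by rw [← ha, ← h0]; norm_num
      have e2 : bp (((k + 1 + 1 : ℕ) : ℤ) + ε) = bp 1 * bp (((k + 1 : ℕ) : ℤ) + ε) := by
        rw [← ha]
        congr 1
        push_cast
        ring
      have e3 : bp (((k + 1 : ℕ) : ℤ) + ε) = bp 1 * bp ((k : ℤ) + ε) := by
        rw [← ha]
        congr 1
        push_cast
        ring
      have e4 : bp (-((k + 1 + 1 : ℕ) : ℤ)) = bp (-1) * bp (-((k + 1 : ℕ) : ℤ)) := by
        rw [← ha]
        congr 1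
        push_cast
        ring
      have e5 : bp (-((k + 1 : ℕ) : ℤ)) = bp (-1) * bp (-(k : ℤ)) := by
        rw [← ha]
        congr 1
        push_cast
        ring
      rw [map_sub, map_mul, Polynomial.aeval_X, mul_sub, ← h1]
      have e6 : (1 + bp 1) ^ ε * ((bp 1 + bp (-1)) * Polynomial.aeval (bp 1 + bp (-1)) Ψ) =
          (bp 1 + bp (-1)) * (bp (((k + 1 : ℕ) : ℤ) + ε) + bp (-((k + 1 : ℕ) : ℤ))) := by
        rw [h2]
        ring
      rw [e6, e2, e4, e3, e5]
      linear_combination (-(bp ((k : ℤ) + ε) + bp (-(k : ℤ)))) * e1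
  obtain ⟨Φ, Ψ, h⟩ := hrec k
  by_cases hs : ε = 0 ∧ k = 0
  · obtain ⟨rfl, rfl⟩ := hs
    refine ⟨1, fun R _ bp h0 _ => ?_⟩
    simp [cls, h0]
  · refine ⟨Φ, fun R _ bp h0 ha => ?_⟩
    rw [← (h R bp h0 ha).1, cls, Finset.sum_pair]
    omega

section

variable {n : ℕ} {ε : ℕ}

lemma flips {g : (Fin n → ℤ) → ℤ} (hf : ∀ i ν, g (Function.update ν i (ε - ν i)) = g ν)
    (ν μ : Fin n → ℤ) (h : ∀ i, μ i = ν i ∨ μ i = ε - ν i) : g μ = g ν := by
  classical
  have key : ∀ T : Finset (Fin n), g (fun i => if i ∈ T then μ i else ν i) = g ν := by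
    intro T
    induction T using Finset.induction_on with
    | empty => simp
    | insert i T hi ih =>
      set F : Fin n → ℤ := fun i => if i ∈ T then μ i else ν i with hF
      have hFi : F i = ν i := by simp [hF, hi]
      have e1 : (fun l => if l ∈ insert i T then μ l else ν l) = Function.update F i (μ i) := by
        funext l
        by_cases hl : l = i
        · subst hl
          simp
        · simp [Finset.mem_insert, hl, hF]
      rw [e1]
      rcases h i with h1 | h1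
      · rw [h1, ← hFi, Function.update_eq_self]
        exact ih
      · rw [h1, ← hFi, hf]
        exact ih
  have := key Finset.univ
  simpa using this

/-- the classes of the support -/
def Kset (ε : ℕ) (g : (Fin n → ℤ) →₀ ℤ) : Finset (Fin n → ℕ) :=
  g.support.image fun ν i => kap ε (ν i)

lemma g_rep (hε : ε = 0 ∨ ε = 1) {g : (Fin n → ℤ) →₀ ℤ}
    (hf : ∀ i ν, g (Function.update ν i (ε - ν i)) = g ν) (ν : Fin n → ℤ) :
    g (fun i => ((kap ε (ν i) : ℕ) : ℤ) + ε) = g ν :=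
  flips hf ν _ fun i => rep_kap hε (ν i)

lemma mem_Kset (hε : ε = 0 ∨ ε = 1) {g : (Fin n → ℤ) →₀ ℤ}
    (hf : ∀ i ν, g (Function.update ν i (ε - ν i)) = g ν) (k : Fin n → ℕ) :
    k ∈ Kset ε g ↔ g (fun i => (k i : ℤ) + ε) ≠ 0 := by
  unfold Kset
  rw [Finset.mem_image]
  constructor
  · rintro ⟨ν, hν, rfl⟩
    rw [g_rep hε hf]
    exact Finsupp.mem_support_iff.1 hν
  · intro h
    exact ⟨_, Finsupp.mem_support_iff.2 h, funext fun i => kap_rep hε (k i)⟩

lemma expand_cls {R : Type} [CommRing R] (hε : ε = 0 ∨ ε = 1) {g : (Fin n → ℤ) →₀ ℤ}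
    (hf : ∀ i ν, g (Function.update ν i (ε - ν i)) = g ν) (bp : Fin n → ℤ → R) :
    ∑ ν ∈ g.support, (g ν : R) * ∏ i, bp i (ν i) =
      ∑ k ∈ Kset ε g, (g (fun i => (k i : ℤ) + ε) : R) * ∏ i, ∑ x ∈ cls ε (k i), bp i x := by
  classical
  rw [← Finset.sum_fiberwise_of_maps_to (s := g.support) (t := Kset ε g)
    (g := fun (ν : Fin n → ℤ) i => kap ε (ν i)) (fun ν hν => Finset.mem_image_of_mem _ hν)]
  refine Finset.sum_congr rfl fun k hk => ?_
  have hk' := (mem_Kset hε hf k).1 hk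
  rw [Finset.prod_univ_sum, Finset.mul_sum]
  have hset : g.support.filter (fun ν => (fun i => kap ε (ν i)) = k) =
      Fintype.piFinset fun i => cls ε (k i) := by
    ext ν
    rw [Finset.mem_filter, Fintype.mem_piFinset, Finsupp.mem_support_iff]
    constructor
    · rintro ⟨-, h⟩ i
      exact (mem_cls hε _ _).2 (congrFun h i)
    · intro h
      have h1 : (fun i => kap ε (ν i)) = k := funext fun i => (mem_cls hε _ _).1 (h i)
      refine ⟨?_, h1⟩
      rw [← g_rep hε hf ν]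
      have h2 : (fun i => ((kap ε (ν i) : ℕ) : ℤ) + ε) = fun i => (k i : ℤ) + ε := by
        funext i
        rw [congrFun h1 i]
      rw [h2]
      exact hk'
  rw [hset]
  refine Finset.sum_congr rfl fun ν hν => ?_
  rw [Fintype.mem_piFinset] at hν
  have h1 : (fun i => ((kap ε (ν i) : ℕ) : ℤ) + ε) = fun i => (k i : ℤ) + ε := by
    funext i
    rw [(mem_cls hε _ _).1 (hν i)]
  rw [← g_rep hε hf ν, h1]

/-- **Invariant functions are symmetric functions of the `y i = b i + b i⁻¹`**, times `∏ (1 + b i) ^ ε` -/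
theorem weyl_mem {R : Type} [CommRing R] (hε : ε = 0 ∨ ε = 1) {g : (Fin n → ℤ) →₀ ℤ}
    (hp : ∀ (σ : Equiv.Perm (Fin n)) (ν : Fin n → ℤ), g (ν ∘ σ) = g ν)
    (hf : ∀ i ν, g (Function.update ν i (ε - ν i)) = g ν) (bp : Fin n → ℤ → R)
    (h0 : ∀ i, bp i 0 = 1) (ha : ∀ i k l, bp i (k + l) = bp i k * bp i l) :
    ∃ x ∈ Subring.closure (Set.range (ey fun i => bp i 1 + bp i (-1))),
      ∑ ν ∈ g.support, (g ν : R) * ∏ i, bp i (ν i) = (∏ i, (1 + bp i 1)) ^ ε * x := by
  classical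
  choose Φ hΦ using exists_phi hε
  let P : MvPolynomial (Fin n) ℤ := ∑ k ∈ Kset ε g,
    MvPolynomial.C (g (fun i => (k i : ℤ) + ε)) *
      ∏ i, Polynomial.aeval (MvPolynomial.X i : MvPolynomial (Fin n) ℤ) (Φ (k i))
  have hP : P.IsSymmetric := by
    intro σ
    simp only [P, map_sum, map_mul, MvPolynomial.rename_C, map_prod]
    have e1 : ∀ (k : Fin n → ℕ) (i : Fin n), MvPolynomial.rename σ
        (Polynomial.aeval (MvPolynomial.X i : MvPolynomial (Fin n) ℤ) (Φ (k i))) =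
        Polynomial.aeval (MvPolynomial.X (σ i) : MvPolynomial (Fin n) ℤ) (Φ (k i)) := by
      intro k i
      rw [← Polynomial.aeval_algHom_apply, MvPolynomial.rename_X]
    simp only [e1]
    refine Finset.sum_bij' (fun k _ => k ∘ σ.symm) (fun k _ => k ∘ σ) ?_ ?_ ?_ ?_ ?_
    · intro k hk
      rw [mem_Kset hε hf] at hk ⊢
      rwa [show (fun i => (((k ∘ σ.symm) i : ℕ) : ℤ) + ε) =
        (fun i => (k i : ℤ) + ε) ∘ σ.symm from rfl, hp]
    · intro k hk
      rw [mem_Kset hε hf] at hk ⊢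
      rwa [show (fun i => (((k ∘ σ) i : ℕ) : ℤ) + ε) = (fun i => (k i : ℤ) + ε) ∘ σ from rfl, hp]
    · intro k _
      funext i
      simp
    · intro k _
      funext i
      simp
    · intro k _
      congr 1
      · rw [show (fun i => (((k ∘ σ.symm) i : ℕ) : ℤ) + ε) =
          (fun i => (k i : ℤ) + ε) ∘ σ.symm from rfl, hp]
      · rw [← Equiv.prod_comp σ (fun i => Polynomial.aeval
          (MvPolynomial.X i : MvPolynomial (Fin n) ℤ) (Φ ((k ∘ σ.symm) i)))]
        refine Finset.prod_congr rfl fun i _ => ?_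
        simp
  refine ⟨_, sym_mem (fun i => bp i 1 + bp i (-1)) hP, ?_⟩
  rw [expand_cls hε hf bp]
  simp only [P, map_sum, map_mul, map_prod, Finset.mul_sum]
  refine Finset.sum_congr rfl fun k _ => ?_
  have e2 : ∀ i, ∑ x ∈ cls ε (k i), bp i x = (1 + bp i 1) ^ ε *
      Polynomial.aeval (bp i 1 + bp i (-1)) (Φ (k i)) := fun i => hΦ (k i) R (bp i) (h0 i) (ha i)
  have e3 : ∀ i, MvPolynomial.aeval (fun i => bp i 1 + bp i (-1))
      (Polynomial.aeval (MvPolynomial.X i : MvPolynomial (Fin n) ℤ) (Φ (k i))) =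
      Polynomial.aeval (bp i 1 + bp i (-1)) (Φ (k i)) := by
    intro i
    rw [← Polynomial.aeval_algHom_apply, MvPolynomial.aeval_X]
  simp only [e2, e3, Finset.prod_mul_distrib, Finset.prod_pow, MvPolynomial.aeval_C]
  simp only [algebraMap_int_eq, eq_intCast]
  ring

end

end Pool.Agent.R390.SP
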