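import Mathlib
import Pool.Agent.R390.SP.Alg2

/-!
# Euler products and elements of the group ring; change of the exceptional set
-/

set_option autoImplicit false

namespace Pool.Agent.R390.SP

open Filter Topology Complex

variable {X : Type} [AddCommGroup X] {S S' : Finset ℕ} {ev : ℕ → X → ℂ}

lemma Lam_eq (h : Ctx X S ev) (F : X →₀ ℤ) : ∃ c : ℝ, ∀ s : ℂ, c < s.re →
    Lam S ev (AddMonoidAlgebra.ofCoeff F) s = ∏' p : Nat.Primes, if (p : ℕ) ∈ S then 1 else
      ∏ x ∈ F.support, (1 - ev p x * ((p : ℕ) : ℂ) ^ (-s)) ^ (-F x) := by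
  obtain ⟨C, hC⟩ := h.unif F.support
  refine ⟨C + 1, fun s hs => ?_⟩
  rw [(prod_EP F.support (fun x p => ev p x) F hC hs).tprod_eq]
  rfl

lemma Ctx.mono (h : Ctx X S ev) (hS : S ⊆ S') : Ctx X S' ev where
  zero p hp hp' := h.zero p hp fun h1 => hp' (hS h1)
  add p hp hp' := h.add p hp fun h1 => hp' (hS h1)
  bdd x := by
    obtain ⟨C, hC⟩ := h.bdd x
    exact ⟨C, fun p hp hp' => hC p hp fun h1 => hp' (hS h1)⟩

lemma E1_change {a : ℕ → ℂ} {C : ℝ} (hS : S ⊆ S') (h : Bdd S a C) {s : ℂ} (hs : C + 1 < s.re) :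
    E1 S a s = E1 S' a s * ∏ p ∈ S' \ S, (if p.Prime then (1 - a p * (p : ℂ) ^ (-s)) else 1) := by
  classical
  have h' : Bdd S' a C := fun p hp hp' => h p hp fun h1 => hp' (hS h1)
  let T : Finset Nat.Primes := (S' \ S).subtype Nat.Prime
  have h1 : HasProd (fun p : Nat.Primes => if (p : ℕ) ∈ S' \ S then
      (1 - a p * ((p : ℕ) : ℂ) ^ (-s)) else 1)
      (∏ p ∈ T, if (p : ℕ) ∈ S' \ S then (1 - a p * ((p : ℕ) : ℂ) ^ (-s)) else 1) := by
    refine hasProd_prod_of_ne_finset_one fun p hp => ?_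
    have : (p : ℕ) ∉ S' \ S := fun h1 => hp (Finset.mem_subtype.2 h1)
    rw [if_neg this]
  have h2 := (E1_mult h' hs).mul h1
  have h3 : (fun p : Nat.Primes => (1 + tm S' a p s) * if (p : ℕ) ∈ S' \ S then
      (1 - a p * ((p : ℕ) : ℂ) ^ (-s)) else 1) = fun p => 1 + tm S a p s := by
    funext p
    unfold tm
    by_cases h1 : (p : ℕ) ∈ S
    · have : (p : ℕ) ∉ S' \ S := fun h3 => (Finset.mem_sdiff.1 h3).2 h1
      rw [if_pos (hS h1), if_neg this, if_pos h1]
      ring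
    · by_cases h4 : (p : ℕ) ∈ S'
      · have : (p : ℕ) ∈ S' \ S := Finset.mem_sdiff.2 ⟨h4, h1⟩
        rw [if_pos h4, if_pos this, if_neg h1]
        ring
      · have : (p : ℕ) ∉ S' \ S := fun h3 => h4 (Finset.mem_sdiff.1 h3).1
        rw [if_neg h4, if_neg this, if_neg h1]
        ring
  rw [h3] at h2
  rw [(E1_mult h hs).unique h2]
  congr 1
  rw [← Finset.prod_filter_mul_prod_filter_not (S' \ S) Nat.Prime]
  have h5 : ∏ p ∈ (S' \ S).filter (fun p => ¬ p.Prime),
      (if p.Prime then (1 - a p * (p : ℂ) ^ (-s)) else 1) = 1 :=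
    Finset.prod_eq_one fun p hp => if_neg (Finset.mem_filter.1 hp).2
  rw [h5, mul_one]
  refine Finset.prod_bij (fun p _ => (p : ℕ)) ?_ ?_ ?_ ?_
  · intro p hp
    exact Finset.mem_filter.2 ⟨Finset.mem_subtype.1 hp, p.2⟩
  · intro p _ q _ hpq
    exact Subtype.ext hpq
  · intro p hp
    exact ⟨⟨p, (Finset.mem_filter.1 hp).2⟩, Finset.mem_subtype.2 (Finset.mem_filter.1 hp).1, rfl⟩
  · intro p hp
    rw [if_pos (Finset.mem_subtype.1 hp), if_pos p.2]

lemma entire_factor (a : ℂ) (p : ℕ) :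
    HasMero (fun s => if p.Prime then (1 - a * (p : ℂ) ^ (-s)) else 1) := by
  by_cases hp : p.Prime
  · have hp0 : ((p : ℕ) : ℂ) ≠ 0 := by exact_mod_cast hp.ne_zero
    refine ⟨fun s => 1 - a * (p : ℂ) ^ (-s), fun s _ => ?_, 0, fun s _ => (if_pos hp).symm⟩
    have hd : Differentiable ℂ (fun s : ℂ => 1 - a * (p : ℂ) ^ (-s)) := by
      refine (differentiable_const _).sub (Differentiable.const_mul ?_ _)
      intro z
      exact (differentiableAt_id.neg).const_cpow (Or.inl hp0)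
    exact (hd.analyticAt s).meromorphicAt
  · simp only [if_neg hp]
    exact HasMero.one

/-- change of the exceptional set -/
theorem hasMero_change (h : Ctx X S ev) (hS : S ⊆ S') (F : AddMonoidAlgebra ℤ X)
    (hF : HasMero (Lam S' ev F)) : HasMero (Lam S ev F) := by
  classical
  obtain ⟨C, hC⟩ := h.unif F.coeff.support
  have h1 : HasMero (fun s => ∏ x ∈ F.coeff.support, (∏ p ∈ S' \ S,
      (if p.Prime then (1 - ev p x * (p : ℂ) ^ (-s)) else 1)) ^ (-F.coeff x)) :=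
    HasMero.prod _ fun x _ => HasMero.zpow (HasMero.prod _ fun p _ => entire_factor _ _) _
  refine (hF.mul h1).congr (c := C + 1) fun s hs => ?_
  unfold Lam Finsupp.prod
  rw [← Finset.prod_mul_distrib]
  refine Finset.prod_congr rfl fun x hx => ?_
  simp only [EP]
  rw [E1_change hS (hC x hx) hs, mul_inv, mul_zpow, zpow_neg, inv_zpow (∏ p ∈ S' \ S, _)]

end Pool.Agent.R390.SP
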