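import Mathlib
import Pool.Agent.R390.SP.Chg

/-!
# Representations of `GL_m`
-/

set_option autoImplicit false

namespace Pool.Agent.R390.SP

open Filter Topology Complex

/-- bounds for integral powers -/
lemma zpow_bound {p : ℕ} (hp : p.Prime) {z : ℂ} {C : ℝ} (h1 : (p : ℝ) ^ (-C) ≤ ‖z‖)
    (h2 : ‖z‖ ≤ (p : ℝ) ^ C) (k : ℤ) : z ≠ 0 ∧ ‖z ^ k‖ ≤ (p : ℝ) ^ (|C| * |(k : ℝ)|) := by
  have hp0 : (0 : ℝ) < p := by exact_mod_cast hp.pos
  have hp1 : (1 : ℝ) ≤ p := by exact_mod_cast hp.one_lt.le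
  have hz : 0 < ‖z‖ := lt_of_lt_of_le (Real.rpow_pos_of_pos hp0 _) h1
  refine ⟨norm_pos_iff.1 hz, ?_⟩
  rw [norm_zpow]
  have hle : ‖z‖ ≤ (p : ℝ) ^ |C| := h2.trans (Real.rpow_le_rpow_of_exponent_le hp1 (le_abs_self C))
  have hge : ‖z‖⁻¹ ≤ (p : ℝ) ^ |C| := by
    have h3 : (p : ℝ) ^ (-|C|) ≤ ‖z‖ :=
      (Real.rpow_le_rpow_of_exponent_le hp1 (by linarith [le_abs_self C])).trans h1
    rw [Real.rpow_neg hp0.le] at h3
    exact inv_le_of_inv_le₀ (Real.rpow_pos_of_pos hp0 _) h3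
  rw [Real.rpow_mul hp0.le]
  rcases le_total 0 k with hk | hk
  · obtain ⟨n, rfl⟩ := Int.eq_ofNat_of_zero_le hk
    have e1 : |((n : ℤ) : ℝ)| = (n : ℝ) := by simp
    rw [e1, Real.rpow_natCast, zpow_natCast]
    exact pow_le_pow_left₀ (norm_nonneg _) hle n
  · obtain ⟨n, hn⟩ := Int.eq_ofNat_of_zero_le (neg_nonneg.2 hk)
    have hk' : k = -(n : ℤ) := by omega
    have e1 : |(k : ℝ)| = (n : ℝ) := by
      rw [hk']
      simp
    rw [e1, Real.rpow_natCast, hk', zpow_neg, zpow_natCast, ← inv_pow]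
    exact pow_le_pow_left₀ (inv_nonneg.2 (norm_nonneg _)) hge n

lemma ey_single {X : Type} [AddCommGroup X] {κ : Type} [Fintype κ] (w : κ → X) :
    ey (fun l => (AddMonoidAlgebra.single (w l) 1 : AddMonoidAlgebra ℤ X)) = es w := by
  funext j
  unfold ey es
  exact Finset.sum_congr rfl fun J _ => prod_single J w

lemma ofCoeff_eq {X : Type} [AddCommGroup X] (F : X →₀ ℤ) :
    (AddMonoidAlgebra.ofCoeff F : AddMonoidAlgebra ℤ X) =
      ∑ x ∈ F.support, ((F x : ℤ) : AddMonoidAlgebra ℤ X) * AddMonoidAlgebra.single x 1 := by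
  classical
  have e1 : ∀ x, ((F x : ℤ) : AddMonoidAlgebra ℤ X) * AddMonoidAlgebra.single x 1 =
      AddMonoidAlgebra.single x (F x) := by
    intro x
    rw [← zsmul_eq_mul, AddMonoidAlgebra.smul_single]
    simp
  simp only [e1]
  conv_lhs => rw [← Finsupp.sum_single F]
  rw [Finsupp.sum]
  have : ∀ T : Finset X, (AddMonoidAlgebra.ofCoeff (∑ x ∈ T, Finsupp.single x (F x)) :
      AddMonoidAlgebra ℤ X) = ∑ x ∈ T, AddMonoidAlgebra.single x (F x) := by
    intro T
    induction T using Finset.induction_on with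
    | empty => rfl
    | insert x T hx ih =>
      rw [Finset.sum_insert hx, Finset.sum_insert hx, ← ih]
      rfl
  exact this F.support

section

variable {m : ℕ}

/-- the evaluation of the weights of `GL_m` -/
noncomputable def glEv (a : ℕ → Fin m → ℂ) (p : ℕ) (ν : Fin m → ℤ) : ℂ := ∏ i, a p i ^ ν i

lemma glCtx (A : Automorphic) {S : Finset ℕ} {a : ℕ → Fin m → ℂ} (ha : A.IsGL m S a) :
    Ctx (Fin m → ℤ) S (glEv a) where
  zero p _ _ := by simp [glEv]
  add p hp hS x y := by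
    obtain ⟨C, hC⟩ := A.growth_gl ha
    unfold glEv
    rw [← Finset.prod_mul_distrib]
    refine Finset.prod_congr rfl fun i _ => ?_
    rw [Pi.add_apply, zpow_add₀ (zpow_bound hp (hC p hp hS i).1 (hC p hp hS i).2 0).1]
  bdd x := by
    obtain ⟨C, hC⟩ := A.growth_gl ha
    refine ⟨∑ i, |C| * |(x i : ℝ)|, fun p hp hS => ?_⟩
    have hp0 : (0 : ℝ) < p := by exact_mod_cast hp.pos
    unfold glEv
    rw [norm_prod, Real.rpow_sum_of_pos hp0]
    exact Finset.prod_le_prod (fun _ _ => norm_nonneg _) fun i _ =>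
      (zpow_bound hp (hC p hp hS i).1 (hC p hp hS i).2 (x i)).2

/-- symmetric Laurent polynomials -/
lemma gl_alg {f : (Fin m → ℤ) →₀ ℤ} (hf : ∀ (σ : Equiv.Perm (Fin m)) (ν : Fin m → ℤ), f (ν ∘ σ) = f ν) :
    ∃ z : ℤ, ∃ x ∈ Subring.closure (Set.range (es (fun l : Fin m => (Pi.single l 1 : Fin m → ℤ)))),
      (AddMonoidAlgebra.ofCoeff f : AddMonoidAlgebra ℤ (Fin m → ℤ)) =
        AddMonoidAlgebra.single (fun _ => z) 1 * x := by
  classical
  -- a common bound
  obtain ⟨K, hK⟩ : ∃ K : ℕ, ∀ ν ∈ f.support, ∀ i, 0 ≤ ν i + K := by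
    refine ⟨∑ ν ∈ f.support, ∑ i, (ν i).natAbs, fun ν hν i => ?_⟩
    have h1 : (ν i).natAbs ≤ ∑ i, (ν i).natAbs :=
      Finset.single_le_sum (f := fun i => (ν i).natAbs) (fun _ _ => Nat.zero_le _) (Finset.mem_univ i)
    have h2 : ∑ i, (ν i).natAbs ≤ ∑ ν ∈ f.support, ∑ i, (ν i).natAbs :=
      Finset.single_le_sum (f := fun ν : Fin m → ℤ => ∑ i, (ν i).natAbs)
        (fun _ _ => Nat.zero_le _) hν
    omega
  let d : (Fin m → ℤ) → (Fin m →₀ ℕ) := fun ν => Finsupp.equivFunOnFinite.symm fun i => (ν i + K).toNat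
  let P : MvPolynomial (Fin m) ℤ := ∑ ν ∈ f.support, MvPolynomial.monomial (d ν) (f ν)
  have hsupp : ∀ (σ : Equiv.Perm (Fin m)) ν, ν ∈ f.support → ν ∘ σ ∈ f.support := by
    intro σ ν hν
    rw [Finsupp.mem_support_iff] at hν ⊢
    rwa [hf]
  have hP : P.IsSymmetric := by
    intro σ
    simp only [P, map_sum, MvPolynomial.rename_monomial]
    refine Finset.sum_bij' (fun ν _ => ν ∘ σ.symm) (fun ν _ => ν ∘ σ) (fun ν hν => hsupp _ ν hν)
      (fun ν hν => hsupp _ ν hν) (fun ν _ => by funext i; simp) (fun ν _ => by funext i; simp) ?_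
    intro ν _
    have hd : Finsupp.mapDomain σ (d ν) = d (ν ∘ σ.symm) := by
      refine Finsupp.ext fun i => ?_
      conv_lhs => rw [← Equiv.apply_symm_apply σ i]
      rw [Finsupp.mapDomain_apply σ.injective]
      rfl
    rw [hf, hd]
  refine ⟨-K, MvPolynomial.aeval (fun l : Fin m =>
      (AddMonoidAlgebra.single (Pi.single l 1 : Fin m → ℤ) 1 : AddMonoidAlgebra ℤ (Fin m → ℤ))) P,
    ?_, ?_⟩
  · have := sym_mem (fun l : Fin m =>
      (AddMonoidAlgebra.single (Pi.single l 1 : Fin m → ℤ) 1 : AddMonoidAlgebra ℤ (Fin m → ℤ))) hP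
    rw [ey_single] at this
    exact this
  · rw [ofCoeff_eq]
    simp only [P, map_sum, Finset.mul_sum]
    refine Finset.sum_congr rfl fun ν hν => ?_
    rw [MvPolynomial.aeval_monomial, Finsupp.prod_fintype _ _ (fun i => pow_zero _)]
    have e1 : ∀ i : Fin m, (AddMonoidAlgebra.single (Pi.single i 1 : Fin m → ℤ) 1 :
        AddMonoidAlgebra ℤ (Fin m → ℤ)) ^ (d ν i) =
        AddMonoidAlgebra.single (Pi.single i (ν i + K)) 1 := by
      intro i
      rw [AddMonoidAlgebra.single_pow, one_pow]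
      congr 1
      have : (d ν i : ℤ) = ν i + K := by
        simp only [d]
        rw [Finsupp.equivFunOnFinite_symm_apply_apply]
        exact Int.toNat_of_nonneg (hK ν hν i)
      rw [← this]
      funext l
      by_cases hl : l = i
      · subst hl
        simp
      · simp [hl]
    simp only [e1]
    rw [prod_single, eq_intCast, mul_left_comm, AddMonoidAlgebra.single_mul_single,
      one_mul]
    congr 2
    funext l
    simp [Finset.sum_apply]

end

/-- **All representations of `GL_m`.** -/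
theorem gl_main (A : Automorphic) (hA : SpinHyp A) {m : ℕ} {S : Finset ℕ} {a : ℕ → Fin m → ℂ}
    (ha : A.IsGL m S a) {f : (Fin m → ℤ) →₀ ℤ}
    (hf : ∀ (σ : Equiv.Perm (Fin m)) (ν : Fin m → ℤ), f (ν ∘ σ) = f ν) : HasMero (glL S a f) := by
  classical
  have hctx := glCtx A ha
  obtain ⟨z, x, hx, he⟩ := gl_alg hf
  have hunit : A.IsGSp 0 S (fun _ => 1) (fun _ i => i.elim0) :=
    A.mono_gsp (Finset.empty_subset S) (A.unit _)
  have h1 := piece_list A hA hctx hunit ha (A.central_gl ha z) 0 (fun i => i.elim0)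
    (fun l : Fin m => (Pi.single l 1 : Fin m → ℤ)) (fun _ => z)
    (fun p hp hS => (hctx.zero p hp hS).symm) (fun p _ _ i => i.elim0)
    (fun p _ _ l => by
      unfold glEv
      rw [Finset.prod_eq_single l (fun i _ hi => by simp [hi]) (by simp)]
      simp)
    (fun p _ _ => by
      unfold glEv
      rw [Finset.prod_zpow]) hx
  have h2 : (∑ I : Finset (Fin 0), (AddMonoidAlgebra.single
      ((0 : Fin m → ℤ) + ∑ i ∈ I, (fun i : Fin 0 => (i.elim0 : Fin m → ℤ)) i) 1 :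
        AddMonoidAlgebra ℤ (Fin m → ℤ))) = 1 := by
    rw [Fintype.sum_unique]
    have h3 : (default : Finset (Fin 0)) = ∅ := Subsingleton.elim _ _
    rw [h3, Finset.sum_empty, add_zero, AddMonoidAlgebra.one_def]
  rw [h2, mul_one, ← he, mem_merSub] at h1
  obtain ⟨c, hc⟩ := Lam_eq hctx f
  exact h1.congr (c := c) fun s hs => hc s hs

end Pool.Agent.R390.SP
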