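import Mathlib
import Pool.Agent.R390.SP.Gl

/-!
# Representations of the dual group of `GSp_{2n}`
-/

set_option autoImplicit false

namespace Pool.Agent.R390.SP

open Filter Topology Complex

section

variable {n : ℕ}

/-- the evaluation of the weights -/
noncomputable def gspEv (b₀ : ℕ → ℂ) (b : ℕ → Fin n → ℂ) (p : ℕ) (ν : ℤ × (Fin n → ℤ)) : ℂ :=
  b₀ p ^ ν.1 * ∏ i, b p i ^ ν.2 i

lemma gspCtx (A : Automorphic) {S : Finset ℕ} {b₀ : ℕ → ℂ} {b : ℕ → Fin n → ℂ}
    (hπ : A.IsGSp n S b₀ b) : Ctx (ℤ × (Fin n → ℤ)) S (gspEv b₀ b) where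
  zero p _ _ := by simp [gspEv]
  add p hp hS x y := by
    obtain ⟨C, hC⟩ := A.growth_gsp hπ
    have h0 := (zpow_bound hp (hC p hp hS).1.1 (hC p hp hS).1.2 0).1
    have h1 : ∏ i, b p i ^ (x + y).2 i = (∏ i, b p i ^ x.2 i) * ∏ i, b p i ^ y.2 i := by
      rw [← Finset.prod_mul_distrib]
      refine Finset.prod_congr rfl fun i _ => ?_
      rw [Prod.snd_add, Pi.add_apply,
        zpow_add₀ (zpow_bound hp ((hC p hp hS).2 i).1 ((hC p hp hS).2 i).2 0).1]
    unfold gspEv
    rw [h1, Prod.fst_add, zpow_add₀ h0]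
    ring
  bdd x := by
    obtain ⟨C, hC⟩ := A.growth_gsp hπ
    refine ⟨|C| * |(x.1 : ℝ)| + ∑ i, |C| * |(x.2 i : ℝ)|, fun p hp hS => ?_⟩
    have hp0 : (0 : ℝ) < p := by exact_mod_cast hp.pos
    unfold gspEv
    rw [norm_mul, norm_prod, Real.rpow_add hp0, Real.rpow_sum_of_pos hp0]
    exact mul_le_mul (zpow_bound hp (hC p hp hS).1.1 (hC p hp hS).1.2 x.1).2
      (Finset.prod_le_prod (fun _ _ => norm_nonneg _) fun i _ =>
        (zpow_bound hp ((hC p hp hS).2 i).1 ((hC p hp hS).2 i).2 (x.2 i)).2)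
      (Finset.prod_nonneg fun _ _ => norm_nonneg _) (Real.rpow_nonneg hp0.le _)

/-- the weights of the standard representation of degree `2 n + 1` -/
def stdW (n : ℕ) : (Fin n ⊕ Fin n) ⊕ Unit → ℤ × (Fin n → ℤ) :=
  Sum.elim (Sum.elim (fun i => (0, Pi.single i 1)) (fun i => (0, Pi.single i (-1)))) (fun _ => 0)

/-- the monomials -/
noncomputable def bp (n : ℕ) (i : Fin n) (k : ℤ) : AddMonoidAlgebra ℤ (ℤ × (Fin n → ℤ)) :=
  AddMonoidAlgebra.single (0, Pi.single i k) 1

lemma bp_zero (i : Fin n) : bp n i 0 = 1 := by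
  unfold bp
  rw [Pi.single_zero, AddMonoidAlgebra.one_def]
  rfl

lemma bp_add (i : Fin n) (k l : ℤ) : bp n i (k + l) = bp n i k * bp n i l := by
  unfold bp
  rw [AddMonoidAlgebra.single_mul_single, one_mul, Prod.mk_add_mk, add_zero, Pi.single_add]

lemma bp_prod (ν : Fin n → ℤ) : ∏ i, bp n i (ν i) = AddMonoidAlgebra.single (0, ν) 1 := by
  unfold bp
  rw [prod_single]
  congr 1
  refine Prod.ext ?_ ?_
  · simp [Prod.fst_sum]
  · rw [Prod.snd_sum]
    funext l
    simp [Finset.sum_apply]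

/-- the ring of the elementary symmetric functions of the standard representation -/
lemma y_mem (j : ℕ) : ey (fun i => bp n i 1 + bp n i (-1)) j ∈
    Subring.closure (Set.range (es (stdW n))) := by
  classical
  refine ey_mem _ (coefIn_of_mul fun j => ?_) j
  have h1 : (∏ i : Fin n, (1 + Polynomial.C (bp n i 1 + bp n i (-1)) * Polynomial.X +
      Polynomial.X ^ 2)) * (1 + Polynomial.X) =
      ∏ l, (1 + Polynomial.C (AddMonoidAlgebra.single (stdW n l) 1) * Polynomial.X) := by
    rw [Fintype.prod_sum_type, Fintype.prod_sum_type, ← Finset.prod_mul_distrib]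
    congr 1
    · refine Finset.prod_congr rfl fun i _ => ?_
      change _ = (1 + Polynomial.C (bp n i 1) * Polynomial.X) *
        (1 + Polynomial.C (bp n i (-1)) * Polynomial.X)
      have h2 : (Polynomial.C (bp n i 1) * Polynomial.C (bp n i (-1)) :
          Polynomial (AddMonoidAlgebra ℤ (ℤ × (Fin n → ℤ)))) = 1 := by
        rw [← Polynomial.C_mul, ← bp_add]
        norm_num [bp_zero]
      rw [Polynomial.C_add]
      linear_combination (-Polynomial.X ^ 2) * h2
    · rw [Fintype.prod_unique]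
      change _ = 1 + Polynomial.C (AddMonoidAlgebra.single 0 1) * Polynomial.X
      rw [← AddMonoidAlgebra.one_def, Polynomial.C_1, one_mul]
  rw [h1, prod_coef, ey_single]
  exact Subring.subset_closure (Set.mem_range_self j)

lemma base_eq (u₀ : ℤ × (Fin n → ℤ)) :
    ∑ I : Finset (Fin n), (AddMonoidAlgebra.single (u₀ + ∑ i ∈ I, ((0, Pi.single i 1) :
      ℤ × (Fin n → ℤ))) 1 : AddMonoidAlgebra ℤ (ℤ × (Fin n → ℤ))) =
      AddMonoidAlgebra.single u₀ 1 * ∏ i, (1 + bp n i 1) := by
  classical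
  rw [Finset.prod_one_add, Finset.mul_sum, Finset.powerset_univ]
  refine Finset.sum_congr rfl fun I _ => ?_
  unfold bp
  rw [prod_single, AddMonoidAlgebra.single_mul_single, one_mul]

/-- the part of `f` with similitude exponent `c` -/
lemma part_eq (f : (ℤ × (Fin n → ℤ)) →₀ ℤ) (c z : ℤ) (ε : ℕ) (hc : c = 2 * z + ε)
    (g : (Fin n → ℤ) →₀ ℤ) (hg : ∀ ν, g ν = f (c, fun i => ν i + z)) :
    ∑ x ∈ f.support.filter (fun x => x.1 = c), ((f x : ℤ) : AddMonoidAlgebra ℤ (ℤ × (Fin n → ℤ))) *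
      AddMonoidAlgebra.single x 1 =
    AddMonoidAlgebra.single (2 * z, fun _ => z) 1 * AddMonoidAlgebra.single ((ε : ℤ), 0) 1 *
      ∑ ν ∈ g.support, ((g ν : ℤ) : AddMonoidAlgebra ℤ (ℤ × (Fin n → ℤ))) * ∏ i, bp n i (ν i) := by
  classical
  rw [Finset.mul_sum]
  refine Finset.sum_bij' (fun x _ => fun i => x.2 i - z) (fun ν _ => (c, fun i => ν i + z))
    ?_ ?_ ?_ ?_ ?_
  · intro x hx
    rw [Finset.mem_filter, Finsupp.mem_support_iff] at hx
    rw [Finsupp.mem_support_iff, hg]
    have : ((c, fun i => x.2 i - z + z) : ℤ × (Fin n → ℤ)) = x := by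
      refine Prod.ext hx.2.symm ?_
      funext i
      simp
    rw [this]
    exact hx.1
  · intro ν hν
    rw [Finsupp.mem_support_iff, hg] at hν
    rw [Finset.mem_filter, Finsupp.mem_support_iff]
    exact ⟨hν, rfl⟩
  · intro x hx
    rw [Finset.mem_filter] at hx
    refine Prod.ext hx.2.symm ?_
    funext i
    simp
  · intro ν _
    funext i
    simp
  · intro x hx
    rw [Finset.mem_filter] at hx
    have h1 : ((c, fun i => x.2 i - z + z) : ℤ × (Fin n → ℤ)) = x := by
      refine Prod.ext hx.2.symm ?_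
      funext i
      simp
    rw [hg, h1, bp_prod, mul_left_comm, AddMonoidAlgebra.single_mul_single, one_mul,
      AddMonoidAlgebra.single_mul_single, one_mul]
    congr 2
    refine Prod.ext ?_ ?_
    · simp only [Prod.fst_add]
      rw [hx.2, hc]
      ring
    · funext i
      simp

end

/-- **All representations of the dual group of `GSp_{2n}`.** -/
theorem gsp_main (A : Automorphic) (hA : SpinHyp A) {n : ℕ} {S : Finset ℕ} {b₀ : ℕ → ℂ}
    {b : ℕ → Fin n → ℂ} (hπ : A.IsGSp n S b₀ b) {f : (ℤ × (Fin n → ℤ)) →₀ ℤ}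
    (hf : WeylInvariant f) : HasMero (gspL S b₀ b f) := by
  classical
  have hctx := gspCtx A hπ
  obtain ⟨S', hSS', hstd⟩ := A.standard hπ
  have hctx' := hctx.mono hSS'
  have hπ' := A.mono_gsp hSS' hπ
  have e : Fin (2 * n + 1) ≃ (Fin n ⊕ Fin n) ⊕ Unit :=
    (Fintype.equivFinOfCardEq (by
      rw [Fintype.card_sum, Fintype.card_sum, Fintype.card_fin, Fintype.card_unit]
      ring)).symm
  have hst := hstd e
  have hunit : A.IsGSp 0 S' (fun _ => 1) (fun _ i => i.elim0) :=
    A.mono_gsp (Finset.empty_subset S') (A.unit _)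
  have hw : ∀ p : ℕ, p.Prime → p ∉ S' → ∀ l : Fin (2 * n + 1),
      Sum.elim (Sum.elim (b p) (fun i => (b p i)⁻¹)) (fun _ => 1) (e l) =
        gspEv b₀ b p (stdW n (e l)) := by
    intro p _ _ l
    rcases e l with (i | i) | _
    · simp only [Sum.elim_inl, stdW, gspEv, zpow_zero, one_mul]
      rw [Finset.prod_eq_single i (fun j _ hj => by simp [hj]) (by simp)]
      simp
    · simp only [Sum.elim_inl, Sum.elim_inr, stdW, gspEv, zpow_zero, one_mul]
      rw [Finset.prod_eq_single i (fun j _ hj => by simp [hj]) (by simp)]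
      simp
    · simp [stdW, gspEv]
  have hclo : ∀ x ∈ Subring.closure (Set.range (ey fun i => bp n i 1 + bp n i (-1))),
      x ∈ Subring.closure (Set.range (es fun l => stdW n (e l))) := by
    have h1 : Set.range (es fun l => stdW n (e l)) = Set.range (es (stdW n)) := by
      congr 1
      funext j
      exact es_equiv e (stdW n) j
    rw [h1]
    intro x hx
    refine Subring.closure_le.2 ?_ hx
    rintro _ ⟨j, rfl⟩
    exact y_mem j
  -- the parts
  have hpart : ∀ c : ℤ, ∑ x ∈ f.support.filter (fun x => x.1 = c),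
      ((f x : ℤ) : AddMonoidAlgebra ℤ (ℤ × (Fin n → ℤ))) * AddMonoidAlgebra.single x 1 ∈
        merSub hctx' := by
    intro c
    obtain ⟨z, ε, hε, hc⟩ : ∃ (z : ℤ) (ε : ℕ), (ε = 0 ∨ ε = 1) ∧ c = 2 * z + ε :=
      ⟨c / 2, (c % 2).toNat, by omega, by omega⟩
    let g : (Fin n → ℤ) →₀ ℤ := f.comapDomain (fun ν : Fin n → ℤ => (c, fun i => ν i + z)) (by
      intro ν _ μ _ h
      have h2 := (Prod.ext_iff.1 h).2
      funext i
      have := congrFun h2 i
      simpa using this)
    have hg : ∀ ν, g ν = f (c, fun i => ν i + z) := fun ν => Finsupp.comapDomain_apply _ _ _ ν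
    rw [part_eq f c z ε hc g hg]
    obtain ⟨x, hx, he⟩ := weyl_mem (n := n) hε (g := g) (fun σ ν => by
        rw [hg, hg]
        exact hf.perm σ c (fun i => ν i + z))
      (fun i ν => by
        rw [hg, hg, ← hf.flip i c (fun i => ν i + z)]
        congr 2
        funext l
        by_cases hl : l = i
        · subst hl
          simp only [Function.update_self]
          rw [hc]
          ring
        · simp [Function.update_of_ne hl])
      (bp n) bp_zero bp_add
    rw [he]
    have hz : ∀ p : ℕ, p.Prime → p ∉ S' → (b₀ p ^ 2 * ∏ i, b p i) ^ z =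
        gspEv b₀ b p ((2 * z, fun _ => z) : ℤ × (Fin n → ℤ)) := by
      intro p _ _
      unfold gspEv
      rw [mul_zpow, Finset.prod_zpow, zpow_mul]
      rfl
    rcases hε with rfl | rfl
    · have h1 := piece_list A hA hctx' hunit hst (A.central_gsp hπ' z) 0 (fun i => i.elim0)
        (fun l => stdW n (e l)) ((2 * z, fun _ => z) : ℤ × (Fin n → ℤ))
        (fun p hp hS => (hctx'.zero p hp hS).symm) (fun p _ _ i => i.elim0) hw hz (hclo x hx)
      have h2 : (∑ I : Finset (Fin 0), (AddMonoidAlgebra.single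
          ((0 : ℤ × (Fin n → ℤ)) + ∑ i ∈ I, (fun i : Fin 0 => (i.elim0 : ℤ × (Fin n → ℤ))) i) 1 :
            AddMonoidAlgebra ℤ (ℤ × (Fin n → ℤ)))) = 1 := by
        rw [Fintype.sum_unique]
        have h3 : (default : Finset (Fin 0)) = ∅ := Subsingleton.elim _ _
        rw [h3, Finset.sum_empty, add_zero, AddMonoidAlgebra.one_def]
      rw [h2, mul_one] at h1
      have h4 : (AddMonoidAlgebra.single (((0 : ℕ) : ℤ), 0) 1 :
          AddMonoidAlgebra ℤ (ℤ × (Fin n → ℤ))) = 1 := by
        rw [AddMonoidAlgebra.one_def]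
        rfl
      rw [h4, mul_one, pow_zero, one_mul]
      exact h1
    · have h1 := piece_list A hA hctx' hπ' hst (A.central_gsp hπ' z)
        ((1, 0) : ℤ × (Fin n → ℤ)) (fun i => ((0, Pi.single i 1) : ℤ × (Fin n → ℤ)))
        (fun l => stdW n (e l)) ((2 * z, fun _ => z) : ℤ × (Fin n → ℤ))
        (fun p _ _ => by simp [gspEv])
        (fun p _ _ i => by
          simp only [gspEv, zpow_zero, one_mul]
          rw [Finset.prod_eq_single i (fun j _ hj => by simp [hj]) (by simp)]
          simp)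
        hw hz (hclo x hx)
      rw [base_eq] at h1
      rw [pow_one]
      have h4 : (AddMonoidAlgebra.single (((1 : ℕ) : ℤ), 0) 1 :
          AddMonoidAlgebra ℤ (ℤ × (Fin n → ℤ))) = AddMonoidAlgebra.single (1, 0) 1 := rfl
      rw [h4]
      have h5 : ∀ P Q R T : AddMonoidAlgebra ℤ (ℤ × (Fin n → ℤ)), P * Q * (R * T) = P * (Q * R) * T :=
        fun P Q R T => by ring
      rw [h5]
      exact h1
  have hall : (AddMonoidAlgebra.ofCoeff f : AddMonoidAlgebra ℤ (ℤ × (Fin n → ℤ))) ∈ merSub hctx' := by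
    rw [ofCoeff_eq, ← Finset.sum_fiberwise_of_maps_to (s := f.support)
      (t := f.support.image fun x => x.1) (g := fun x : ℤ × (Fin n → ℤ) => x.1)
      (fun x hx => Finset.mem_image_of_mem _ hx)]
    exact sum_mem fun c _ => hpart c
  have h6 := hasMero_change hctx hSS' _ hall
  obtain ⟨c, hc⟩ := Lam_eq hctx f
  exact h6.congr (c := c) fun s hs => hc s hs

end Pool.Agent.R390.SP
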