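import Mathlib
import Pool.Agent.R390.SP.Gsp

/-!
# Tensor products, and the converse
-/

set_option autoImplicit false

namespace Pool.Agent.R390.SP

open Filter Topology Complex

lemma Ctx.prod {X Y : Type} [AddCommGroup X] [AddCommGroup Y] {S : Finset ℕ} {ev : ℕ → X → ℂ}
    {ev' : ℕ → Y → ℂ} (h : Ctx X S ev) (h' : Ctx Y S ev') :
    Ctx (X × Y) S (fun p x => ev p x.1 * ev' p x.2) where
  zero p hp hS := by
    rw [Prod.fst_zero, Prod.snd_zero, h.zero p hp hS, h'.zero p hp hS, one_mul]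
  add p hp hS x y := by
    rw [Prod.fst_add, Prod.snd_add, h.add p hp hS, h'.add p hp hS]
    ring
  bdd x := by
    obtain ⟨C, hC⟩ := h.bdd x.1
    obtain ⟨C', hC'⟩ := h'.bdd x.2
    refine ⟨C + C', fun p hp hS => ?_⟩
    have hp0 : (0 : ℝ) < p := by exact_mod_cast hp.pos
    rw [norm_mul, Real.rpow_add hp0]
    exact mul_le_mul (hC p hp hS) (hC' p hp hS) (norm_nonneg _) (Real.rpow_nonneg hp0.le _)

lemma Ctx.pi {β : Type} [Fintype β] {X : β → Type} [∀ i, AddCommGroup (X i)] {S : Finset ℕ}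
    {ev : ∀ i, ℕ → X i → ℂ} (h : ∀ i, Ctx (X i) S (ev i)) :
    Ctx (∀ i, X i) S (fun p x => ∏ i, ev i p (x i)) where
  zero p hp hS := Finset.prod_eq_one fun i _ => (h i).zero p hp hS
  add p hp hS x y := by
    rw [← Finset.prod_mul_distrib]
    exact Finset.prod_congr rfl fun i _ => (h i).add p hp hS _ _
  bdd x := by
    choose C hC using fun i => (h i).bdd (x i)
    refine ⟨∑ i, C i, fun p hp hS => ?_⟩
    have hp0 : (0 : ℝ) < p := by exact_mod_cast hp.pos
    rw [norm_prod, Real.rpow_sum_of_pos hp0]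
    exact Finset.prod_le_prod (fun _ _ => norm_nonneg _) fun i _ => hC i p hp hS

/-- **Tensor products.** -/
theorem tensor_main (A : Automorphic) (hA : SpinHyp A) {n : ℕ} {S : Finset ℕ} {b₀ : ℕ → ℂ}
    {b : ℕ → Fin n → ℂ} (hπ : A.IsGSp n S b₀ b) {β : Type} [Fintype β] [DecidableEq β] {m : β → ℕ}
    {a : ∀ i, ℕ → Fin (m i) → ℂ} (ha : ∀ i, A.IsGL (m i) S (a i)) (j : β → ℕ) :
    HasMero (tensorL S b₀ b a j) := by
  classical
  have hctx := (gspCtx A hπ).prod (Ctx.pi fun i => glCtx A (ha i))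
  set ev : ℕ → (ℤ × (Fin n → ℤ)) × (∀ i, Fin (m i) → ℤ) → ℂ :=
    fun p x => gspEv b₀ b p x.1 * ∏ i, glEv (a i) p (x.2 i) with hev
  set u₀ : (ℤ × (Fin n → ℤ)) × (∀ i, Fin (m i) → ℤ) := ((1, 0), 0) with hu₀d
  set u : Fin n → (ℤ × (Fin n → ℤ)) × (∀ i, Fin (m i) → ℤ) := fun i => ((0, Pi.single i 1), 0)
    with hud
  set w : ∀ i, Fin (m i) → (ℤ × (Fin n → ℤ)) × (∀ i, Fin (m i) → ℤ) :=
    fun i l => (0, Pi.single i (Pi.single l 1)) with hwd
  have hu₀ : ∀ p : ℕ, p.Prime → p ∉ S → b₀ p = ev p u₀ := by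
    intro p _ _
    simp [hev, hu₀d, gspEv, glEv]
  have hu : ∀ p : ℕ, p.Prime → p ∉ S → ∀ i, b p i = ev p (u i) := by
    intro p _ _ i
    simp only [hev, hud, gspEv, glEv, zpow_zero, one_mul, Pi.zero_apply, Finset.prod_const_one,
      mul_one]
    rw [Finset.prod_eq_single i (fun j _ hj => by simp [hj]) (by simp)]
    simp
  have hw : ∀ p : ℕ, p.Prime → p ∉ S → ∀ i l, a i p l = ev p (w i l) := by
    intro p hp hS i l
    simp only [hev, hwd]
    rw [(gspCtx A hπ).zero p hp hS, one_mul, Finset.prod_eq_single i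
      (fun j _ hj => by
        rw [Pi.single_eq_of_ne hj]
        exact (glCtx A (ha j)).zero p hp hS) (by simp), Pi.single_eq_same]
    unfold glEv
    rw [Finset.prod_eq_single l (fun j _ hj => by simp [hj]) (by simp)]
    simp
  have h1 := piece A hA hctx hπ ha u₀ u w hu₀ hu hw j
  rw [expand, mem_merSub] at h1
  set T : Finset (Finset (Fin n) × (∀ i, Finset (Fin (m i)))) :=
    Finset.univ ×ˢ Fintype.piFinset (fun i => Finset.powersetCard (j i) Finset.univ) with hT
  obtain ⟨c, hc⟩ := Lam_sum hctx T (wgt u₀ u w)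
  obtain ⟨C, hC⟩ := hctx.unif (T.image (wgt u₀ u w))
  refine h1.congr (c := max c (C + 1)) fun s hs => ?_
  have hs1 : c < s.re := lt_of_le_of_lt (le_max_left _ _) hs
  have hs2 : C + 1 < s.re := lt_of_le_of_lt (le_max_right _ _) hs
  rw [hc s hs1]
  have h2 := prod_EP T (fun k p => ev p (wgt u₀ u w k)) (fun _ => (1 : ℤ))
    (fun k hk => hC _ (Finset.mem_image_of_mem _ hk)) hs2
  simp only [zpow_one] at h2
  rw [← h2.tprod_eq]
  unfold tensorL
  refine tprod_congr fun p => ?_
  split_ifs with hS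
  · rfl
  · rw [hT, Finset.prod_product]
    refine Finset.prod_congr rfl fun I _ => Finset.prod_congr rfl fun J _ => ?_
    have h3 : ev p (wgt u₀ u w (I, J)) = b₀ p * (∏ i ∈ I, b p i) * (∏ i, ∏ l ∈ J i, a i p l) := by
      rw [wgt, hctx.add p p.2 hS, hctx.add p p.2 hS, hctx.sum _ _ p.2 hS, hctx.sum _ _ p.2 hS,
        ← hu₀ p p.2 hS]
      have e1 : ∏ i ∈ I, b p i = ∏ i ∈ I, ev p (u i) :=
        Finset.prod_congr rfl fun i _ => hu p p.2 hS i
      have e2 : ∏ i, ∏ l ∈ J i, a i p l = ∏ i, ev p (∑ l ∈ J i, w i l) := by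
        refine Finset.prod_congr rfl fun i _ => ?_
        rw [hctx.sum _ _ p.2 hS]
        exact Finset.prod_congr rfl fun l _ => hw p p.2 hS i l
      rw [e1, e2, mul_assoc]
    simp only [h3]
    rw [zpow_neg_one]

section conv

variable {n : ℕ}

/-- the weights of the spin representation -/
def spinWt (I : Finset (Fin n)) : ℤ × (Fin n → ℤ) := (1, fun i => if i ∈ I then 1 else 0)

lemma spinWt_inj : Function.Injective (spinWt (n := n)) := by
  intro I J h
  ext i
  have := congrFun (Prod.ext_iff.1 h).2 i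
  simp only [spinWt] at this
  by_cases hI : i ∈ I <;> by_cases hJ : i ∈ J <;> simp_all

/-- the multiplicities of the weights of the spin representation -/
noncomputable def spinF (n : ℕ) : (ℤ × (Fin n → ℤ)) →₀ ℤ := by
  classical
  exact Finsupp.onFinset (Finset.univ.image spinWt)
    (fun x => if x.1 = 1 ∧ ∀ i, x.2 i = 0 ∨ x.2 i = 1 then 1 else 0) (by
      intro x hx
      have h1 : x.1 = 1 ∧ ∀ i, x.2 i = 0 ∨ x.2 i = 1 := by
        by_contra hne
        exact hx (if_neg hne)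
      refine Finset.mem_image.2 ⟨Finset.univ.filter fun i => x.2 i = 1, Finset.mem_univ _, ?_⟩
      refine Prod.ext h1.1.symm ?_
      funext i
      simp only [spinWt, Finset.mem_filter, Finset.mem_univ, true_and]
      rcases h1.2 i with h2 | h2 <;> simp [h2])

lemma spinF_apply (x : ℤ × (Fin n → ℤ)) : spinF n x =
    if x.1 = 1 ∧ ∀ i, x.2 i = 0 ∨ x.2 i = 1 then 1 else 0 := by
  classical
  unfold spinF
  rw [Finsupp.onFinset_apply]

lemma spinF_supp : (spinF n).support = Finset.univ.image spinWt := by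
  classical
  ext x
  rw [Finsupp.mem_support_iff, spinF_apply, Finset.mem_image]
  constructor
  · intro hx
    have h1 : x.1 = 1 ∧ ∀ i, x.2 i = 0 ∨ x.2 i = 1 := by
      by_contra hne
      exact hx (if_neg hne)
    refine ⟨Finset.univ.filter fun i => x.2 i = 1, Finset.mem_univ _, ?_⟩
    refine Prod.ext h1.1.symm ?_
    funext i
    simp only [spinWt, Finset.mem_filter, Finset.mem_univ, true_and]
    rcases h1.2 i with h2 | h2 <;> simp [h2]
  · rintro ⟨I, -, rfl⟩
    rw [if_pos]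
    · exact one_ne_zero
    · refine ⟨rfl, fun i => ?_⟩
      simp only [spinWt]
      by_cases h : i ∈ I <;> simp [h]

lemma spinF_weyl : WeylInvariant (spinF n) where
  perm σ ν₀ ν := by
    rw [spinF_apply, spinF_apply]
    have : (ν₀ = 1 ∧ ∀ i, (ν ∘ σ) i = 0 ∨ (ν ∘ σ) i = 1) ↔ (ν₀ = 1 ∧ ∀ i, ν i = 0 ∨ ν i = 1) := by
      refine and_congr_right fun _ => ⟨fun h i => ?_, fun h i => h (σ i)⟩
      have := h (σ.symm i)
      simpa using this
    simp only [this]
  flip i ν₀ ν := by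
    rw [spinF_apply, spinF_apply]
    have : (ν₀ = 1 ∧ ∀ l, Function.update ν i (ν₀ - ν i) l = 0 ∨
        Function.update ν i (ν₀ - ν i) l = 1) ↔ (ν₀ = 1 ∧ ∀ l, ν l = 0 ∨ ν l = 1) := by
      refine and_congr_right fun h1 => forall_congr' fun l => ?_
      subst h1
      by_cases hl : l = i
      · subst hl
        rw [Function.update_self]
        omega
      · rw [Function.update_of_ne hl]
    simp only [this]

lemma spin_eq (S : Finset ℕ) (b₀ : ℕ → ℂ) (b : ℕ → Fin n → ℂ) :
    gspL S b₀ b (spinF n) = spinL S b₀ b := by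
  classical
  funext s
  unfold gspL spinL
  refine tprod_congr fun p => ?_
  split_ifs
  · rfl
  · rw [spinF_supp, Finset.prod_image (fun I _ J _ h => spinWt_inj h)]
    refine Finset.prod_congr rfl fun I _ => ?_
    have h1 : spinF n (spinWt I) = 1 := by
      rw [spinF_apply, if_pos]
      refine ⟨rfl, fun i => ?_⟩
      simp only [spinWt]
      by_cases h : i ∈ I <;> simp [h]
    have h2 : ∏ i, b p i ^ (spinWt I).2 i = ∏ i ∈ I, b p i := by
      simp only [spinWt]
      have h3 : ∀ i, b p i ^ (if i ∈ I then (1 : ℤ) else 0) = if i ∈ I then b p i else 1 := by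
        intro i
        split_ifs <;> simp
      simp only [h3]
      rw [Finset.prod_ite_mem, Finset.univ_inter]
    rw [h1, h2, zpow_neg_one]
    have h4 : b₀ p ^ (spinWt I).1 = b₀ p := by
      simp [spinWt]
    rw [h4]

end conv

/-- The spin `L`-functions of the automorphic representations of `GSp_{2N}` have a meromorphic
continuation, for infinitely many `N`. -/
def SpinContinued (A : Automorphic) : Prop :=
  ∀ M : ℕ, ∃ N : ℕ, M ≤ N ∧ ∀ (S : Finset ℕ) (b₀ : ℕ → ℂ) (b : ℕ → Fin N → ℂ), A.IsGSp N S b₀ b →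
    HasMero (spinL S b₀ b)

/-- All the `L`-functions of the automorphic representations of all `GSp_{2n}` and `GL_m` and all tensor
products of exterior powers and spin representations have a meromorphic continuation. -/
structure AllContinued (A : Automorphic) : Prop where
  gsp : ∀ (n : ℕ) (S : Finset ℕ) (b₀ : ℕ → ℂ) (b : ℕ → Fin n → ℂ), A.IsGSp n S b₀ b →
    ∀ f : (ℤ × (Fin n → ℤ)) →₀ ℤ, WeylInvariant f → HasMero (gspL S b₀ b f)
  gl : ∀ (m : ℕ) (S : Finset ℕ) (a : ℕ → Fin m → ℂ), A.IsGL m S a → ∀ f : (Fin m → ℤ) →₀ ℤ,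
    (∀ (σ : Equiv.Perm (Fin m)) (ν : Fin m → ℤ), f (ν ∘ σ) = f ν) → HasMero (glL S a f)
  tensor : ∀ (n : ℕ) (S : Finset ℕ) (b₀ : ℕ → ℂ) (b : ℕ → Fin n → ℂ), A.IsGSp n S b₀ b →
    ∀ (β : Type) [Fintype β] [DecidableEq β] (m : β → ℕ) (a : ∀ i, ℕ → Fin (m i) → ℂ),
    (∀ i, A.IsGL (m i) S (a i)) → ∀ j : β → ℕ, HasMero (tensorL S b₀ b a j)

/-- **The spin representation suffices.** -/
theorem main (A : Automorphic) : SpinContinued A ↔ AllContinued A := by
  constructor
  · intro h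
    exact {
      gsp := fun n S b₀ b hπ f hf => gsp_main A h hπ hf
      gl := fun m S a ha f hf => gl_main A h ha hf
      tensor := fun n S b₀ b hπ β _ _ m a ha j => tensor_main A h hπ ha j }
  · intro h M
    refine ⟨M, le_refl M, fun S b₀ b hπ => ?_⟩
    rw [← spin_eq]
    exact h.gsp M S b₀ b hπ _ spinF_weyl

end Pool.Agent.R390.SP
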